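import Mathlib

/-!
SpLin: orthogonality for random functions `f : V → Fin 7` and the linear second moment.

Proof. `or7`: for every `t : Fin 7` the map `f ↦ Function.update f u (f u + t)` is a bijection of `V → Fin 7` (inverse with `-t`), so
`∑_f χ (f u) * Ψ f = ∑_f χ (f u + t) * Ψ f`; sum over the seven `t`: the right side is `∑_f Ψ f * ∑_t χ (f u + t) = 0`.
`li7`: expand the square (`Finset.sum_mul_sum`) and exchange the sums. For `ρ v ≠ ρ v'` the inner sum is `0` by `or7` with `u := ρ v`,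
`Ψ f := χ (f (ρ v'))`; otherwise it is at most the number `7 ^ card V` of functions. For fixed `v` at most `s` elements `v'` have `ρ v' = ρ v`.
`ct7`: `li7` for `χ g := (if g ∈ I then 1 else 0) - (I.card : ℝ) / 7`.
-/

set_option autoImplicit false

namespace Pool.Agent.H65.SP2

open Finset Classical

theorem or7 {V : Type} [Fintype V] (u : V) (χ : Fin 7 → ℝ) (hχ : ∑ g, χ g = 0)
    (Ψ : (V → Fin 7) → ℝ) (hΨ : ∀ f g, Ψ (Function.update f u g) = Ψ f) :
    ∑ f : V → Fin 7, χ (f u) * Ψ f = 0 := by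
  have key : ∀ t : Fin 7, ∑ f : V → Fin 7, χ (f u) * Ψ f =
      ∑ f : V → Fin 7, χ (f u + t) * Ψ f := by
    intro t
    let e : (V → Fin 7) ≃ (V → Fin 7) :=
      { toFun := fun f => Function.update f u (f u + t)
        invFun := fun f => Function.update f u (f u - t)
        left_inv := by
          intro f
          funext x
          by_cases hx : x = u
          · subst hx; simp
          · simp [hx]
        right_inv := by
          intro f
          funext x
          by_cases hx : x = u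
          · subst hx; simp
          · simp [hx] }
    rw [← e.sum_comp]
    refine Finset.sum_congr rfl fun f _ => ?_
    have h1 : e f u = f u + t := by simp [e]
    have h2 : Ψ (e f) = Ψ f := hΨ f _
    rw [h1, h2]
  have h7 : (7 : ℝ) * ∑ f : V → Fin 7, χ (f u) * Ψ f = 0 := by
    have h1 : ∑ _t : Fin 7, ∑ f : V → Fin 7, χ (f u) * Ψ f =
        ∑ t : Fin 7, ∑ f : V → Fin 7, χ (f u + t) * Ψ f :=
      Finset.sum_congr rfl fun t _ => key t
    rw [Finset.sum_const, Finset.card_univ, Fintype.card_fin, nsmul_eq_mul] at h1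
    rw [Finset.sum_comm] at h1
    have h2 : ∀ f : V → Fin 7, ∑ t : Fin 7, χ (f u + t) * Ψ f = 0 := by
      intro f
      rw [← Finset.sum_mul]
      have h3 : ∑ t : Fin 7, χ (f u + t) = ∑ g : Fin 7, χ g :=
        Equiv.sum_comp (Equiv.addLeft (f u)) χ
      rw [h3, hχ, zero_mul]
    rw [Finset.sum_congr rfl fun f _ => h2 f, Finset.sum_const_zero] at h1
    exact_mod_cast h1
  linarith

theorem li7 {V : Type} [Fintype V] (ρ : V → V) (s : ℕ)
    (hρ : ∀ u, (univ.filter fun v => ρ v = u).card ≤ s) (T : Finset V) (χ : Fin 7 → ℝ)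
    (hχ : ∑ g, χ g = 0) (h1 : ∀ g, |χ g| ≤ 1) :
    ∑ f : V → Fin 7, (∑ v ∈ T, χ (f (ρ v))) ^ 2 ≤
      (7 : ℝ) ^ Fintype.card V * (s * T.card) := by
  have hexp : ∑ f : V → Fin 7, (∑ v ∈ T, χ (f (ρ v))) ^ 2 =
      ∑ v ∈ T, ∑ v' ∈ T, ∑ f : V → Fin 7, χ (f (ρ v)) * χ (f (ρ v')) := by
    have h1 : ∀ f : V → Fin 7, (∑ v ∈ T, χ (f (ρ v))) ^ 2 =
        ∑ v ∈ T, ∑ v' ∈ T, χ (f (ρ v)) * χ (f (ρ v')) := by
      intro f
      rw [pow_two, Finset.sum_mul_sum]
    rw [Finset.sum_congr rfl fun f _ => h1 f, Finset.sum_comm]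
    refine Finset.sum_congr rfl fun v _ => ?_
    rw [Finset.sum_comm]
  have hne : ∀ v v' : V, ρ v ≠ ρ v' →
      ∑ f : V → Fin 7, χ (f (ρ v)) * χ (f (ρ v')) = 0 := by
    intro v v' h
    refine or7 (ρ v) χ hχ (fun f => χ (f (ρ v'))) ?_
    intro f g
    show χ (Function.update f (ρ v) g (ρ v')) = χ (f (ρ v'))
    rw [Function.update_of_ne (fun h' => h h'.symm)]
  have hle : ∀ v v' : V, ∑ f : V → Fin 7, χ (f (ρ v)) * χ (f (ρ v')) ≤
      (7 : ℝ) ^ Fintype.card V := by
    intro v v'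
    have h1 : ∀ f ∈ (univ : Finset (V → Fin 7)), χ (f (ρ v)) * χ (f (ρ v')) ≤ (1 : ℝ) := by
      intro f _
      have h2 : |χ (f (ρ v)) * χ (f (ρ v'))| ≤ 1 := by
        rw [abs_mul]
        exact mul_le_one₀ (h1 _) (abs_nonneg _) (h1 _)
      exact (le_abs_self _).trans h2
    refine (Finset.sum_le_sum h1).trans ?_
    rw [Finset.sum_const, Finset.card_univ, Fintype.card_fun, Fintype.card_fin, nsmul_eq_mul,
      mul_one]
    push_cast
    exact le_rfl
  have hin : ∀ v ∈ T, ∑ v' ∈ T, ∑ f : V → Fin 7, χ (f (ρ v)) * χ (f (ρ v')) ≤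
      (7 : ℝ) ^ Fintype.card V * s := by
    intro v _
    have h1 : ∑ v' ∈ T, ∑ f : V → Fin 7, χ (f (ρ v)) * χ (f (ρ v')) ≤
        ∑ v' ∈ T, if ρ v' = ρ v then (7 : ℝ) ^ Fintype.card V else 0 := by
      refine Finset.sum_le_sum fun v' _ => ?_
      split_ifs with h
      · exact hle v v'
      · exact le_of_eq (hne v v' (fun h' => h h'.symm))
    refine h1.trans ?_
    rw [← Finset.sum_filter, Finset.sum_const, nsmul_eq_mul, mul_comm]
    refine mul_le_mul_of_nonneg_left ?_ (by positivity)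
    have h2 : (T.filter fun v' => ρ v' = ρ v).card ≤ s :=
      (Finset.card_le_card (Finset.filter_subset_filter _ (Finset.subset_univ T))).trans (hρ (ρ v))
    exact_mod_cast h2
  rw [hexp]
  refine (Finset.sum_le_sum hin).trans ?_
  rw [Finset.sum_const, nsmul_eq_mul]
  apply le_of_eq
  ring

theorem ct7 {V : Type} [Fintype V] (ρ : V → V) (s : ℕ)
    (hρ : ∀ u, (univ.filter fun v => ρ v = u).card ≤ s) (T : Finset V) (I : Finset (Fin 7)) :
    ∑ f : V → Fin 7, (((T.filter fun v => f (ρ v) ∈ I).card : ℝ) - (I.card : ℝ) / 7 * T.card) ^ 2 ≤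
      (7 : ℝ) ^ Fintype.card V * (s * T.card) := by
  have hI : (I.card : ℝ) ≤ 7 := by
    have h1 : I.card ≤ 7 := by
      have := Finset.card_le_univ I
      rwa [Fintype.card_fin] at this
    exact_mod_cast h1
  have hI0 : (0 : ℝ) ≤ I.card := by positivity
  obtain ⟨χ, hχd⟩ : ∃ χ : Fin 7 → ℝ, χ = fun g => (if g ∈ I then (1 : ℝ) else 0) - (I.card : ℝ) / 7 :=
    ⟨_, rfl⟩
  have hχ : ∑ g, χ g = 0 := by
    rw [hχd, Finset.sum_sub_distrib, Finset.sum_const, Finset.card_univ, Fintype.card_fin,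
      nsmul_eq_mul, Finset.sum_ite_mem, Finset.univ_inter, Finset.sum_const, nsmul_eq_mul]
    push_cast
    ring
  have h1 : ∀ g, |χ g| ≤ 1 := by
    intro g
    rw [hχd]
    show |(if g ∈ I then (1 : ℝ) else 0) - (I.card : ℝ) / 7| ≤ 1
    rw [abs_le]
    split_ifs
    · constructor
      · linarith
      · linarith
    · constructor
      · linarith
      · linarith
  have h2 := li7 ρ s hρ T χ hχ h1
  refine le_trans (le_of_eq ?_) h2
  refine Finset.sum_congr rfl fun f _ => ?_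
  congr 1
  rw [hχd]
  show _ = ∑ v ∈ T, ((if f (ρ v) ∈ I then (1 : ℝ) else 0) - (I.card : ℝ) / 7)
  rw [Finset.sum_sub_distrib, Finset.sum_const, nsmul_eq_mul, ← Finset.sum_filter,
    Finset.sum_const, nsmul_eq_mul]
  ring

end Pool.Agent.H65.SP2
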