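import Mathlib
import Pool.Agent.H65.SP2.Lin

/-!
SpEx1: the expected shortage and excess of a class on a set `T` (natural subtractions).

Proof. Let `X f := #(T.filter fun v => f (ρ v) ∈ I)`, `m := (I.card : ℝ) / 7 * T.card`. By `ct7`, `∑_f (X f - m)² ≤ 7 ^ n * (s * #T)`. If `T = ∅` all
terms are `0`. Otherwise use `z - b ≤ z² / (4 b)` for `b > 0` (because `(z - 2 b)² ≥ 0`).
`ex6`: `I = {j}`, `m = #T / 7`: `6 X - #T = 6 (X - m) - #T / 7 ≤ 36 (X - m)² / (4 #T / 7) = 63 (X - m)² / #T`, also `0 ≤` the right side, so the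
natural subtraction `6 X - #T` (cast to `ℝ`) is at most `63 (X - m)² / #T`. Sum over `f`: at most `63 * s * 7 ^ n`.
`ex10`: `I = univ.erase 0`, 6 elements, `m = 6 #T / 7`, and `f (ρ v) ∈ I ↔ f (ρ v) ≠ 0`: `8 #T - 10 X = -10 (X - m) - 4 #T / 7 ≤ 100 (X - m)² / (16 #T / 7) =
(175 / 4) (X - m)² / #T`. Sum over `f`: at most `44 * s * 7 ^ n`.
(Cast of a natural subtraction: by `Nat.le_total`; `Nat.cast_sub` in one case, `0` in the other.)
-/

set_option autoImplicit false

namespace Pool.Agent.H65.SP2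

open Finset Classical

private theorem sqEx1_sub (a b : ℕ) (c : ℝ) (h0 : 0 ≤ c) (h : (a : ℝ) - b ≤ c) :
    ((a - b : ℕ) : ℝ) ≤ c := by
  rcases Nat.le_total b a with h1 | h1
  · rw [Nat.cast_sub h1]
    exact h
  · rw [Nat.sub_eq_zero_of_le h1]
    simpa using h0

private theorem sqEx1_a (x t : ℝ) (ht : 0 < t) : 6 * x - t ≤ 63 / t * (x - 1 / 7 * t) ^ 2 := by
  rw [div_mul_eq_mul_div, le_div_iff₀ ht]
  nlinarith [sq_nonneg (21 * (x - 1 / 7 * t) - t)]

private theorem sqEx1_b (x t : ℝ) (ht : 0 < t) : 8 * t - 10 * x ≤ 44 / t * (x - 6 / 7 * t) ^ 2 := by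
  rw [div_mul_eq_mul_div, le_div_iff₀ ht]
  nlinarith [sq_nonneg (44 * (x - 6 / 7 * t) + 5 * t), sq_nonneg t]

theorem ex6 {V : Type} [Fintype V] (ρ : V → V) (s : ℕ)
    (hρ : ∀ u, (univ.filter fun v => ρ v = u).card ≤ s) (T : Finset V) (j : Fin 7) :
    ∑ f : V → Fin 7, ((6 * (T.filter fun v => f (ρ v) = j).card - T.card : ℕ) : ℝ) ≤
      63 * s * (7 : ℝ) ^ Fintype.card V := by
  rcases Finset.eq_empty_or_nonempty T with hT | hT
  · subst hT
    simp only [Finset.filter_empty, Finset.card_empty, Nat.mul_zero, Nat.sub_zero, Nat.cast_zero,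
      Finset.sum_const_zero]
    positivity
  have htn : 0 < T.card := hT.card_pos
  have ht : (0 : ℝ) < (T.card : ℝ) := by exact_mod_cast htn
  have hct := ct7 ρ s hρ T {j}
  simp only [Finset.mem_singleton, Finset.card_singleton, Nat.cast_one] at hct
  calc ∑ f : V → Fin 7, ((6 * (T.filter fun v => f (ρ v) = j).card - T.card : ℕ) : ℝ)
      ≤ ∑ f : V → Fin 7, 63 / (T.card : ℝ) *
          (((T.filter fun v => f (ρ v) = j).card : ℝ) - 1 / 7 * T.card) ^ 2 := by
        apply Finset.sum_le_sum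
        intro f _
        apply sqEx1_sub
        · positivity
        · have h := sqEx1_a ((T.filter fun v => f (ρ v) = j).card : ℝ) (T.card : ℝ) ht
          push_cast
          exact h
    _ = 63 / (T.card : ℝ) * ∑ f : V → Fin 7,
          (((T.filter fun v => f (ρ v) = j).card : ℝ) - 1 / 7 * T.card) ^ 2 := by
        rw [Finset.mul_sum]
    _ ≤ 63 / (T.card : ℝ) * ((7 : ℝ) ^ Fintype.card V * (s * T.card)) :=
        mul_le_mul_of_nonneg_left hct (by positivity)
    _ = 63 * s * (7 : ℝ) ^ Fintype.card V := by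
        field_simp

theorem ex10 {V : Type} [Fintype V] (ρ : V → V) (s : ℕ)
    (hρ : ∀ u, (univ.filter fun v => ρ v = u).card ≤ s) (T : Finset V) :
    ∑ f : V → Fin 7, ((8 * T.card - 10 * (T.filter fun v => f (ρ v) ≠ 0).card : ℕ) : ℝ) ≤
      44 * s * (7 : ℝ) ^ Fintype.card V := by
  rcases Finset.eq_empty_or_nonempty T with hT | hT
  · subst hT
    simp only [Finset.filter_empty, Finset.card_empty, Nat.mul_zero, Nat.sub_zero, Nat.cast_zero,
      Finset.sum_const_zero]
    positivity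
  have htn : 0 < T.card := hT.card_pos
  have ht : (0 : ℝ) < (T.card : ℝ) := by exact_mod_cast htn
  have hct := ct7 ρ s hρ T (univ.erase 0)
  have hc6 : ((univ : Finset (Fin 7)).erase 0).card = 6 := by decide
  rw [hc6] at hct
  simp only [Finset.mem_erase, Finset.mem_univ, and_true, Nat.cast_ofNat] at hct
  calc ∑ f : V → Fin 7, ((8 * T.card - 10 * (T.filter fun v => f (ρ v) ≠ 0).card : ℕ) : ℝ)
      ≤ ∑ f : V → Fin 7, 44 / (T.card : ℝ) *
          (((T.filter fun v => f (ρ v) ≠ 0).card : ℝ) - 6 / 7 * T.card) ^ 2 := by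
        apply Finset.sum_le_sum
        intro f _
        apply sqEx1_sub
        · positivity
        · have h := sqEx1_b ((T.filter fun v => f (ρ v) ≠ 0).card : ℝ) (T.card : ℝ) ht
          push_cast
          exact h
    _ = 44 / (T.card : ℝ) * ∑ f : V → Fin 7,
          (((T.filter fun v => f (ρ v) ≠ 0).card : ℝ) - 6 / 7 * T.card) ^ 2 := by
        rw [Finset.mul_sum]
    _ ≤ 44 / (T.card : ℝ) * ((7 : ℝ) ^ Fintype.card V * (s * T.card)) :=
        mul_le_mul_of_nonneg_left hct (by positivity)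
    _ = 44 * s * (7 : ℝ) ^ Fintype.card V := by
        field_simp

end Pool.Agent.H65.SP2
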