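import Mathlib
import Pool.Agent.H65.SP2.Lin

/-!
SpQu: the second moment of the number of pairs with given classes.

Proof. Put `a g := if g ∈ I then 1 else 0`, `b g := if g ∈ J then 1 else 0` (real valued), `p := I.card / 7`, `r := J.card / 7`, and for `e ∈ E` let
`X e f := a (f (ρ e.1)) * b (f (ρ e.2)) - p * r`. The quantity that is squared is `∑_{e ∈ E} X e f`. Expand the square: `∑_{e, e'} ∑_f X e f * X e' f`.
(1) If `ρ e'.1, ρ e'.2` are both different from `ρ e.1` and `ρ e.2`, the inner sum is `0`: with `a' g := a g - p`, `b' g := b g - r` (both have sum `0` over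
`Fin 7`) we have `X e f = a' (f (ρ e.1)) * b (f (ρ e.2)) + p * b' (f (ρ e.2))`; in `a' (f (ρ e.1)) * (b (f (ρ e.2)) * X e' f)` the second factor does not depend on
the coordinate `ρ e.1` (here `ρ e.1 ≠ ρ e.2` is used), so `or7` applies; in `b' (f (ρ e.2)) * (p * X e' f)` the second factor does not depend on `ρ e.2`.
(2) Always `|X e f| ≤ 1`, so the inner sum is at most `7 ^ n`.
(3) For fixed `e` the number of `e' ∈ E` that are not as in (1) is at most `4 s M`: each of the four conditions `ρ e'.1 = u` or `ρ e'.2 = u` (`u = ρ e.1` or `u = ρ e.2`)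
holds for at most `s M` elements of `E`: the set is the union over the at most `s` vertices `v` with `ρ v = u` of `{e' ∈ E | e'.1 = v}` (`Finset.card_biUnion_le`).
So the sum is at most `#E * (4 s M) * 7 ^ n`.
-/

set_option autoImplicit false

namespace Pool.Agent.H65.SP2

open Finset Classical

private theorem qu_ind (I : Finset (Fin 7)) :
    ∑ g : Fin 7, ((if g ∈ I then (1 : ℝ) else 0) - (I.card : ℝ) / 7) = 0 := by
  have h1 : ∑ g : Fin 7, (if g ∈ I then (1 : ℝ) else 0) = I.card := by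
    rw [Finset.sum_boole]
    congr 2
    ext g
    simp
  rw [sum_sub_distrib, sum_const, card_univ, Fintype.card_fin, h1, nsmul_eq_mul]
  push_cast
  ring

private theorem qu_p (I : Finset (Fin 7)) : 0 ≤ (I.card : ℝ) / 7 ∧ (I.card : ℝ) / 7 ≤ 1 := by
  constructor
  · positivity
  · rw [div_le_one (by norm_num)]
    have h : I.card ≤ 7 := by
      have := Finset.card_le_univ I
      rwa [Fintype.card_fin] at this
    exact_mod_cast h

private theorem qu_cnt {V : Type} [Fintype V] (ρ : V → V) (s : ℕ)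
    (hρ : ∀ u, (univ.filter fun v => ρ v = u).card ≤ s) (E : Finset (V × V))
    (M : ℝ) (hM : 0 ≤ M) (π : V × V → V)
    (h1 : ∀ v, ((E.filter fun e => π e = v).card : ℝ) ≤ M) (u : V) :
    ((E.filter fun e => ρ (π e) = u).card : ℝ) ≤ s * M := by
  have h2 : (E.filter fun e => ρ (π e) = u) ⊆
      (univ.filter fun v => ρ v = u).biUnion (fun v => E.filter fun e => π e = v) := by
    intro e he
    rw [mem_filter] at he
    exact mem_biUnion.mpr ⟨π e, mem_filter.mpr ⟨mem_univ _, he.2⟩, mem_filter.mpr ⟨he.1, rfl⟩⟩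
  have h3 : ((E.filter fun e => ρ (π e) = u).card : ℝ) ≤
      ∑ v ∈ univ.filter (fun v => ρ v = u), ((E.filter fun e => π e = v).card : ℝ) := by
    have h4 := (card_le_card h2).trans card_biUnion_le
    exact_mod_cast h4
  calc ((E.filter fun e => ρ (π e) = u).card : ℝ)
      ≤ ∑ v ∈ univ.filter (fun v => ρ v = u), ((E.filter fun e => π e = v).card : ℝ) := h3
    _ ≤ ∑ _v ∈ univ.filter (fun v => ρ v = u), M := sum_le_sum fun v _ => h1 v
    _ = ((univ.filter fun v => ρ v = u).card : ℝ) * M := by rw [sum_const, nsmul_eq_mul]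
    _ ≤ s * M := by
        apply mul_le_mul_of_nonneg_right _ hM
        exact_mod_cast hρ u

theorem qu7 {V : Type} [Fintype V] (ρ : V → V) (s : ℕ)
    (hρ : ∀ u, (univ.filter fun v => ρ v = u).card ≤ s) (E : Finset (V × V))
    (hE : ∀ e ∈ E, ρ e.1 ≠ ρ e.2) (M : ℝ) (hM : 0 ≤ M)
    (h1 : ∀ v, ((E.filter fun e => e.1 = v).card : ℝ) ≤ M)
    (h2 : ∀ v, ((E.filter fun e => e.2 = v).card : ℝ) ≤ M) (I J : Finset (Fin 7)) :
    ∑ f : V → Fin 7, (((E.filter fun e => f (ρ e.1) ∈ I ∧ f (ρ e.2) ∈ J).card : ℝ) -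
      (I.card : ℝ) / 7 * ((J.card : ℝ) / 7) * E.card) ^ 2 ≤
      (7 : ℝ) ^ Fintype.card V * (4 * s * M * E.card) := by
  obtain ⟨a, ha⟩ : ∃ a : Fin 7 → ℝ, a = fun g => if g ∈ I then (1 : ℝ) else 0 := ⟨_, rfl⟩
  obtain ⟨b, hb⟩ : ∃ b : Fin 7 → ℝ, b = fun g => if g ∈ J then (1 : ℝ) else 0 := ⟨_, rfl⟩
  obtain ⟨p, hp⟩ : ∃ p : ℝ, p = (I.card : ℝ) / 7 := ⟨_, rfl⟩
  obtain ⟨r, hr⟩ : ∃ r : ℝ, r = (J.card : ℝ) / 7 := ⟨_, rfl⟩
  have hp01 := qu_p I
  have hr01 := qu_p J
  have hpI := qu_ind I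
  have hrJ := qu_ind J
  rw [← hp] at hp01 hpI
  rw [← hr] at hr01 hrJ
  have ha01 : ∀ g, 0 ≤ a g ∧ a g ≤ 1 := by
    intro g
    simp only [ha]
    split_ifs <;> norm_num
  have hb01 : ∀ g, 0 ≤ b g ∧ b g ≤ 1 := by
    intro g
    simp only [hb]
    split_ifs <;> norm_num
  have haS : ∑ g, (a g - p) = 0 := by simpa only [ha] using hpI
  have hbS : ∑ g, (b g - r) = 0 := by simpa only [hb] using hrJ
  obtain ⟨X, hX⟩ : ∃ X : V × V → (V → Fin 7) → ℝ,
      X = fun e f => a (f (ρ e.1)) * b (f (ρ e.2)) - p * r := ⟨_, rfl⟩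
  have hXv : ∀ e f, X e f = a (f (ρ e.1)) * b (f (ρ e.2)) - p * r := fun e f => by rw [hX]
  have hX1 : ∀ e f, |X e f| ≤ 1 := by
    intro e f
    rw [hXv, abs_le]
    have u1 := ha01 (f (ρ e.1))
    have u2 := hb01 (f (ρ e.2))
    have u3 : 0 ≤ a (f (ρ e.1)) * b (f (ρ e.2)) := mul_nonneg u1.1 u2.1
    have u4 : a (f (ρ e.1)) * b (f (ρ e.2)) ≤ 1 := mul_le_one₀ u1.2 u2.1 u2.2
    have u5 : 0 ≤ p * r := mul_nonneg hp01.1 hr01.1
    have u6 : p * r ≤ 1 := mul_le_one₀ hp01.2 hr01.1 hr01.2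
    constructor <;> linarith
  have hsum : ∀ f : V → Fin 7,
      ((E.filter fun e => f (ρ e.1) ∈ I ∧ f (ρ e.2) ∈ J).card : ℝ) -
        p * r * E.card = ∑ e ∈ E, X e f := by
    intro f
    have h3 : ((E.filter fun e => f (ρ e.1) ∈ I ∧ f (ρ e.2) ∈ J).card : ℝ)
        = ∑ e ∈ E, a (f (ρ e.1)) * b (f (ρ e.2)) := by
      rw [← Finset.sum_boole]
      refine sum_congr rfl fun e _ => ?_
      simp only [ha, hb]
      by_cases c1 : f (ρ e.1) ∈ I <;> by_cases c2 : f (ρ e.2) ∈ J <;> simp [c1, c2]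
    rw [h3]
    simp only [hXv]
    rw [sum_sub_distrib, sum_const, nsmul_eq_mul]
    ring
  have hA : ∀ e ∈ E, ∀ e' : V × V, ρ e'.1 ≠ ρ e.1 → ρ e'.1 ≠ ρ e.2 → ρ e'.2 ≠ ρ e.1 →
      ρ e'.2 ≠ ρ e.2 → ∑ f : V → Fin 7, X e f * X e' f = 0 := by
    intro e he e' c1 c2 c3 c4
    have hne := hE e he
    have k1 := or7 (ρ e.1) (fun g => a g - p) haS (fun f => b (f (ρ e.2)) * X e' f) (by
      intro f g
      simp only [hXv]
      rw [Function.update_of_ne hne.symm, Function.update_of_ne c1, Function.update_of_ne c3])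
    have k2 := or7 (ρ e.2) (fun g => b g - r) hbS (fun f => p * X e' f) (by
      intro f g
      simp only [hXv]
      rw [Function.update_of_ne c2, Function.update_of_ne c4])
    have k3 : ∑ f : V → Fin 7, X e f * X e' f
        = ∑ f : V → Fin 7, (a (f (ρ e.1)) - p) * (b (f (ρ e.2)) * X e' f)
          + ∑ f : V → Fin 7, (b (f (ρ e.2)) - r) * (p * X e' f) := by
      rw [← sum_add_distrib]
      refine sum_congr rfl fun f _ => ?_
      rw [hXv e f]
      ring
    rw [k3]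
    rw [k1, k2, add_zero]
  have hB : ∀ e e' : V × V, ∑ f : V → Fin 7, X e f * X e' f ≤ (7 : ℝ) ^ Fintype.card V := by
    intro e e'
    calc ∑ f : V → Fin 7, X e f * X e' f ≤ ∑ _f : V → Fin 7, (1 : ℝ) := by
          refine sum_le_sum fun f _ => ?_
          refine (le_abs_self _).trans ?_
          rw [abs_mul]
          exact mul_le_one₀ (hX1 e f) (abs_nonneg _) (hX1 e' f)
      _ = (7 : ℝ) ^ Fintype.card V := by
          rw [sum_const, card_univ, Fintype.card_fun, Fintype.card_fin, nsmul_eq_mul]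
          push_cast
          ring
  have h7 : (0 : ℝ) ≤ (7 : ℝ) ^ Fintype.card V := by positivity
  have hN : ∀ e : V × V, ((E.filter fun e' => ρ e'.1 = ρ e.1 ∨ ρ e'.1 = ρ e.2 ∨
      ρ e'.2 = ρ e.1 ∨ ρ e'.2 = ρ e.2).card : ℝ) ≤ 4 * s * M := by
    intro e
    have g1 := qu_cnt ρ s hρ E M hM (fun e' => e'.1) h1 (ρ e.1)
    have g2 := qu_cnt ρ s hρ E M hM (fun e' => e'.1) h1 (ρ e.2)
    have g3 := qu_cnt ρ s hρ E M hM (fun e' => e'.2) h2 (ρ e.1)
    have g4 := qu_cnt ρ s hρ E M hM (fun e' => e'.2) h2 (ρ e.2)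
    have g5 : (E.filter fun e' => ρ e'.1 = ρ e.1 ∨ ρ e'.1 = ρ e.2 ∨
        ρ e'.2 = ρ e.1 ∨ ρ e'.2 = ρ e.2).card ≤
        (E.filter fun e' => ρ e'.1 = ρ e.1).card + ((E.filter fun e' => ρ e'.1 = ρ e.2).card +
        ((E.filter fun e' => ρ e'.2 = ρ e.1).card + (E.filter fun e' => ρ e'.2 = ρ e.2).card)) := by
      rw [filter_or, filter_or, filter_or]
      refine (card_union_le _ _).trans (Nat.add_le_add_left ?_ _)
      refine (card_union_le _ _).trans (Nat.add_le_add_left ?_ _)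
      exact card_union_le _ _
    have g6 : ((E.filter fun e' => ρ e'.1 = ρ e.1 ∨ ρ e'.1 = ρ e.2 ∨
        ρ e'.2 = ρ e.1 ∨ ρ e'.2 = ρ e.2).card : ℝ) ≤
        ((E.filter fun e' => ρ e'.1 = ρ e.1).card : ℝ) +
        (((E.filter fun e' => ρ e'.1 = ρ e.2).card : ℝ) +
        (((E.filter fun e' => ρ e'.2 = ρ e.1).card : ℝ) +
          ((E.filter fun e' => ρ e'.2 = ρ e.2).card : ℝ))) := by
      exact_mod_cast g5
    linarith
  rw [← hp, ← hr]
  calc ∑ f : V → Fin 7, (((E.filter fun e => f (ρ e.1) ∈ I ∧ f (ρ e.2) ∈ J).card : ℝ) -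
        p * r * E.card) ^ 2
      = ∑ f : V → Fin 7, ∑ e ∈ E, ∑ e' ∈ E, X e f * X e' f := by
        refine sum_congr rfl fun f _ => ?_
        rw [hsum f, sq, sum_mul_sum]
    _ = ∑ e ∈ E, ∑ e' ∈ E, ∑ f : V → Fin 7, X e f * X e' f := by
        rw [sum_comm]
        refine sum_congr rfl fun e _ => ?_
        rw [sum_comm]
    _ ≤ ∑ _e ∈ E, (4 * s * M) * (7 : ℝ) ^ Fintype.card V := by
        refine sum_le_sum fun e he => ?_
        calc ∑ e' ∈ E, ∑ f : V → Fin 7, X e f * X e' f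
            ≤ ∑ e' ∈ E, (if ρ e'.1 = ρ e.1 ∨ ρ e'.1 = ρ e.2 ∨ ρ e'.2 = ρ e.1 ∨ ρ e'.2 = ρ e.2
                then (7 : ℝ) ^ Fintype.card V else 0) := by
              refine sum_le_sum fun e' _ => ?_
              split_ifs with hc
              · exact hB e e'
              · push Not at hc
                exact le_of_eq (hA e he e' hc.1 hc.2.1 hc.2.2.1 hc.2.2.2)
          _ = ((E.filter fun e' => ρ e'.1 = ρ e.1 ∨ ρ e'.1 = ρ e.2 ∨
              ρ e'.2 = ρ e.1 ∨ ρ e'.2 = ρ e.2).card : ℝ) * (7 : ℝ) ^ Fintype.card V := by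
              rw [← sum_filter, sum_const, nsmul_eq_mul]
          _ ≤ (4 * s * M) * (7 : ℝ) ^ Fintype.card V := mul_le_mul_of_nonneg_right (hN e) h7
    _ = (7 : ℝ) ^ Fintype.card V * (4 * s * M * E.card) := by
        rw [sum_const, nsmul_eq_mul]
        ring

end Pool.Agent.H65.SP2
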