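import Mathlib
import Pool.Agent.H65.SP2.Qu
import Pool.Agent.H71.TD.Ifc

/-!
SpEx2: the expected excess and shortage of the number of edges between two classes (natural subtractions).

Proof. `ee F P Q` is the number of elements of `E := (P ×ˢ Q).filter fun e => F.Adj e.1 e.2` (look at the definition of `ee`; see also
`Pool/Agent/H65/SPL/G2.lean`), and `ee F (P.filter fun v => f (ρ v) ∈ I) (Q.filter fun v => f (ρ v) ∈ J)` is the number `Z f` of `e ∈ E` with `f (ρ e.1) ∈ I`, `f (ρ e.2) ∈ J`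
(same pairs). `hE` of `qu7` holds by `hF`; `#{e ∈ E | e.1 = v} ≤ dg F v ≤ d` for `v ∈ P` and `0` otherwise; the same for `e.2` and `Q` (`F.symm`). So with
`m := (I.card / 7) * (J.card / 7) * #E`, `∑_f (Z f - m)² ≤ 7 ^ n * (4 s d #E)`. If `E = ∅` all terms are `0`. Otherwise use `z - b ≤ z² / (4 b)` for `b > 0`.
`ex36`: `I = {i}`, `J = {j}`, `m = #E / 49`: `36 Z - #E = 36 (Z - m) - 13 #E / 49 ≤ 1296 (Z - m)² * 49 / (52 #E)`; sum over `f`: `≤ 1296 * 49 / 52 * 4 * s * d * 7 ^ n ≤ 5000 * s * d * 7 ^ n`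
(`1296 * 49 * 4 / 52 = 4884.9..`).
`ex22`: `I = J = univ.erase 0`, `m = 36 #E / 49`: `16 #E - 22 Z = -22 (Z - m) - 8 #E / 49 ≤ 484 (Z - m)² * 49 / (32 #E)`; sum over `f`: `≤ 484 * 49 / 32 * 4 * s * d * 7 ^ n ≤ 3000 * s * d * 7 ^ n`.
-/

set_option autoImplicit false

namespace Pool.Agent.H65.SP2

open Finset Classical
open Pool.Agent.H71.DN Pool.Agent.H71.DX Pool.Agent.H71.DR Pool.Agent.H71.HL Pool.Agent.H71.DC
open Pool.Agent.H71.TD

private theorem ex2_core {V : Type} [Fintype V] (ρ : V → V) (s : ℕ)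
    (hρ : ∀ u, (univ.filter fun v => ρ v = u).card ≤ s) (F : SimpleGraph V)
    (hF : ∀ a b, F.Adj a b → ρ a ≠ ρ b) (P Q : Finset V) (d : ℝ) (hd0 : 0 ≤ d)
    (hd : ∀ v ∈ P ∪ Q, (dg F v : ℝ) ≤ d) (I J : Finset (Fin 7)) :
    ∑ f : V → Fin 7, ((ee F (P.filter fun v => f (ρ v) ∈ I) (Q.filter fun v => f (ρ v) ∈ J) : ℝ) -
      (I.card : ℝ) / 7 * ((J.card : ℝ) / 7) * (ee F P Q : ℝ)) ^ 2 ≤
      (7 : ℝ) ^ Fintype.card V * (4 * s * d * (ee F P Q : ℝ)) := by
  have hE : ee F P Q = ((P ×ˢ Q).filter (fun x => F.Adj x.1 x.2)).card := rfl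
  have hZ : ∀ f : V → Fin 7, ee F (P.filter fun v => f (ρ v) ∈ I) (Q.filter fun v => f (ρ v) ∈ J) =
      (((P ×ˢ Q).filter (fun x => F.Adj x.1 x.2)).filter
        (fun e => f (ρ e.1) ∈ I ∧ f (ρ e.2) ∈ J)).card := by
    intro f
    unfold ee
    congr 1
    ext x
    simp only [Finset.mem_filter, Finset.mem_product]
    tauto
  have h := qu7 ρ s hρ ((P ×ˢ Q).filter (fun x => F.Adj x.1 x.2))
    (fun e he => hF _ _ (Finset.mem_filter.1 he).2) d hd0 ?_ ?_ I J
  · rw [hE]
    simp only [hZ]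
    exact h
  · intro v
    by_cases hv : v ∈ P
    · refine le_trans ?_ (hd v (Finset.mem_union_left _ hv))
      have : (((P ×ˢ Q).filter (fun x => F.Adj x.1 x.2)).filter fun e => e.1 = v).card ≤
          dg F v := by
        unfold dg
        refine Finset.card_le_card_of_injOn (fun e => e.2) ?_ ?_
        · intro e he
          simp only [Finset.coe_filter, Set.mem_ofPred_eq, Finset.mem_filter,
            Finset.mem_product] at he ⊢
          obtain ⟨⟨⟨_, _⟩, h3⟩, h4⟩ := he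
          exact ⟨Finset.mem_univ _, h4 ▸ h3⟩
        · intro a ha b hb hab
          simp only [Finset.coe_filter, Set.mem_ofPred_eq, Finset.mem_filter,
            Finset.mem_product] at ha hb
          exact Prod.ext (ha.2.trans hb.2.symm) hab
      exact_mod_cast this
    · have : (((P ×ˢ Q).filter (fun x => F.Adj x.1 x.2)).filter fun e => e.1 = v) = ∅ := by
        ext e
        simp only [Finset.mem_filter, Finset.mem_product, Finset.notMem_empty, iff_false]
        rintro ⟨⟨⟨h1, _⟩, _⟩, rfl⟩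
        exact hv h1
      rw [this]
      simpa using hd0
  · intro v
    by_cases hv : v ∈ Q
    · refine le_trans ?_ (hd v (Finset.mem_union_right _ hv))
      have : (((P ×ˢ Q).filter (fun x => F.Adj x.1 x.2)).filter fun e => e.2 = v).card ≤
          dg F v := by
        unfold dg
        refine Finset.card_le_card_of_injOn (fun e => e.1) ?_ ?_
        · intro e he
          simp only [Finset.coe_filter, Set.mem_ofPred_eq, Finset.mem_filter,
            Finset.mem_product] at he ⊢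
          obtain ⟨⟨⟨_, _⟩, h3⟩, h4⟩ := he
          exact ⟨Finset.mem_univ _, h4 ▸ h3.symm⟩
        · intro a ha b hb hab
          simp only [Finset.coe_filter, Set.mem_ofPred_eq, Finset.mem_filter,
            Finset.mem_product] at ha hb
          exact Prod.ext hab (ha.2.trans hb.2.symm)
      exact_mod_cast this
    · have : (((P ×ˢ Q).filter (fun x => F.Adj x.1 x.2)).filter fun e => e.2 = v) = ∅ := by
        ext e
        simp only [Finset.mem_filter, Finset.mem_product, Finset.notMem_empty, iff_false]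
        rintro ⟨⟨⟨_, h1⟩, _⟩, rfl⟩
        exact hv h1
      rw [this]
      simpa using hd0

private theorem ex2_sub_le (a b : ℕ) (c : ℝ) (h0 : 0 ≤ c) (h : (a : ℝ) - b ≤ c) :
    ((a - b : ℕ) : ℝ) ≤ c := by
  rcases le_total b a with h1 | h1
  · rw [Nat.cast_sub h1]
    exact h
  · rw [Nat.sub_eq_zero_of_le h1]
    simpa using h0

private theorem ex2_ee_le {V : Type} [Fintype V] (F : SimpleGraph V) (P Q P' Q' : Finset V)
    (hP : P' ⊆ P) (hQ : Q' ⊆ Q) : ee F P' Q' ≤ ee F P Q := by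
  unfold ee
  exact Finset.card_le_card (Finset.filter_subset_filter _ (Finset.product_subset_product hP hQ))

theorem ex36 {V : Type} [Fintype V] (ρ : V → V) (s : ℕ)
    (hρ : ∀ u, (univ.filter fun v => ρ v = u).card ≤ s) (F : SimpleGraph V)
    (hF : ∀ a b, F.Adj a b → ρ a ≠ ρ b) (P Q : Finset V) (d : ℝ) (hd0 : 0 ≤ d)
    (hd : ∀ v ∈ P ∪ Q, (dg F v : ℝ) ≤ d) (i j : Fin 7) :
    ∑ f : V → Fin 7, ((36 * ee F (P.filter fun v => f (ρ v) = i) (Q.filter fun v => f (ρ v) = j) -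
      ee F P Q : ℕ) : ℝ) ≤ 5000 * s * d * (7 : ℝ) ^ Fintype.card V := by
  have hcore := ex2_core ρ s hρ F hF P Q d hd0 hd {i} {j}
  simp only [Finset.mem_singleton, Finset.card_singleton, Nat.cast_one] at hcore
  have hs7 : (0 : ℝ) ≤ s * d * (7 : ℝ) ^ Fintype.card V := by positivity
  rcases Nat.eq_zero_or_pos (ee F P Q) with h0 | hpos
  · have hz : ∀ f : V → Fin 7, ((36 * ee F (P.filter fun v => f (ρ v) = i)
        (Q.filter fun v => f (ρ v) = j) - ee F P Q : ℕ) : ℝ) = 0 := by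
      intro f
      have h1 := ex2_ee_le F P Q (P.filter fun v => f (ρ v) = i) (Q.filter fun v => f (ρ v) = j)
        (Finset.filter_subset _ _) (Finset.filter_subset _ _)
      have h2 : ee F (P.filter fun v => f (ρ v) = i) (Q.filter fun v => f (ρ v) = j) = 0 := by
        omega
      rw [h2, h0]
      simp
    simp only [hz, Finset.sum_const_zero]
    nlinarith
  · have hM : (0 : ℝ) < (ee F P Q : ℝ) := by exact_mod_cast hpos
    set M : ℝ := (ee F P Q : ℝ) with hMdef
    have hterm : ∀ f : V → Fin 7, ((36 * ee F (P.filter fun v => f (ρ v) = i)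
        (Q.filter fun v => f (ρ v) = j) - ee F P Q : ℕ) : ℝ) ≤
        1296 * 49 / (52 * M) * ((ee F (P.filter fun v => f (ρ v) = i)
          (Q.filter fun v => f (ρ v) = j) : ℝ) - 1 / 7 * (1 / 7) * M) ^ 2 := by
      intro f
      set Z : ℝ := (ee F (P.filter fun v => f (ρ v) = i) (Q.filter fun v => f (ρ v) = j) : ℝ)
        with hZdef
      apply ex2_sub_le
      · positivity
      · push_cast
        rw [← hZdef, ← hMdef]
        rw [div_mul_eq_mul_div, le_div_iff₀ (by positivity)]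
        nlinarith [sq_nonneg (36 * 49 * (Z - 1 / 7 * (1 / 7) * M) - 26 * M)]
    calc ∑ f : V → Fin 7, ((36 * ee F (P.filter fun v => f (ρ v) = i)
        (Q.filter fun v => f (ρ v) = j) - ee F P Q : ℕ) : ℝ)
        ≤ ∑ f : V → Fin 7, 1296 * 49 / (52 * M) * ((ee F (P.filter fun v => f (ρ v) = i)
          (Q.filter fun v => f (ρ v) = j) : ℝ) - 1 / 7 * (1 / 7) * M) ^ 2 :=
          Finset.sum_le_sum fun f _ => hterm f
      _ = 1296 * 49 / (52 * M) * ∑ f : V → Fin 7, ((ee F (P.filter fun v => f (ρ v) = i)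
          (Q.filter fun v => f (ρ v) = j) : ℝ) - 1 / 7 * (1 / 7) * M) ^ 2 := by
          rw [Finset.mul_sum]
      _ ≤ 1296 * 49 / (52 * M) * ((7 : ℝ) ^ Fintype.card V * (4 * s * d * M)) :=
          mul_le_mul_of_nonneg_left hcore (by positivity)
      _ = 1296 * 49 * 4 / 52 * (s * d * (7 : ℝ) ^ Fintype.card V) := by
          field_simp
      _ ≤ 5000 * s * d * (7 : ℝ) ^ Fintype.card V := by nlinarith

theorem ex22 {V : Type} [Fintype V] (ρ : V → V) (s : ℕ)
    (hρ : ∀ u, (univ.filter fun v => ρ v = u).card ≤ s) (F : SimpleGraph V)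
    (hF : ∀ a b, F.Adj a b → ρ a ≠ ρ b) (P Q : Finset V) (d : ℝ) (hd0 : 0 ≤ d)
    (hd : ∀ v ∈ P ∪ Q, (dg F v : ℝ) ≤ d) :
    ∑ f : V → Fin 7, ((16 * ee F P Q - 22 * ee F (P.filter fun v => f (ρ v) ≠ 0)
      (Q.filter fun v => f (ρ v) ≠ 0) : ℕ) : ℝ) ≤ 3000 * s * d * (7 : ℝ) ^ Fintype.card V := by
  have hcore := ex2_core ρ s hρ F hF P Q d hd0 hd (univ.erase 0) (univ.erase 0)
  have hcard : (((univ : Finset (Fin 7)).erase 0).card : ℝ) = 6 := by
    have : ((univ : Finset (Fin 7)).erase 0).card = 6 := by decide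
    rw [this]
    norm_num
  rw [hcard] at hcore
  simp only [Finset.mem_erase, Finset.mem_univ, and_true] at hcore
  have hs7 : (0 : ℝ) ≤ s * d * (7 : ℝ) ^ Fintype.card V := by positivity
  rcases Nat.eq_zero_or_pos (ee F P Q) with h0 | hpos
  · have hz : ∀ f : V → Fin 7, ((16 * ee F P Q - 22 * ee F (P.filter fun v => f (ρ v) ≠ 0)
      (Q.filter fun v => f (ρ v) ≠ 0) : ℕ) : ℝ) = 0 := by
      intro f
      rw [h0]
      simp
    simp only [hz, Finset.sum_const_zero]
    nlinarith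
  · have hM : (0 : ℝ) < (ee F P Q : ℝ) := by exact_mod_cast hpos
    set M : ℝ := (ee F P Q : ℝ) with hMdef
    have hterm : ∀ f : V → Fin 7, ((16 * ee F P Q - 22 * ee F (P.filter fun v => f (ρ v) ≠ 0)
      (Q.filter fun v => f (ρ v) ≠ 0) : ℕ) : ℝ) ≤
        484 * 49 / (32 * M) * ((ee F (P.filter fun v => f (ρ v) ≠ 0)
          (Q.filter fun v => f (ρ v) ≠ 0) : ℝ) - 6 / 7 * (6 / 7) * M) ^ 2 := by
      intro f
      set Z : ℝ := (ee F (P.filter fun v => f (ρ v) ≠ 0) (Q.filter fun v => f (ρ v) ≠ 0) : ℝ)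
        with hZdef
      apply ex2_sub_le
      · positivity
      · push_cast
        rw [← hZdef, ← hMdef]
        rw [div_mul_eq_mul_div, le_div_iff₀ (by positivity)]
        nlinarith [sq_nonneg (22 * 49 * (Z - 6 / 7 * (6 / 7) * M) + 16 * M)]
    calc ∑ f : V → Fin 7, ((16 * ee F P Q - 22 * ee F (P.filter fun v => f (ρ v) ≠ 0)
      (Q.filter fun v => f (ρ v) ≠ 0) : ℕ) : ℝ)
        ≤ ∑ f : V → Fin 7, 484 * 49 / (32 * M) * ((ee F (P.filter fun v => f (ρ v) ≠ 0)
          (Q.filter fun v => f (ρ v) ≠ 0) : ℝ) - 6 / 7 * (6 / 7) * M) ^ 2 :=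
          Finset.sum_le_sum fun f _ => hterm f
      _ = 484 * 49 / (32 * M) * ∑ f : V → Fin 7, ((ee F (P.filter fun v => f (ρ v) ≠ 0)
          (Q.filter fun v => f (ρ v) ≠ 0) : ℝ) - 6 / 7 * (6 / 7) * M) ^ 2 := by
          rw [Finset.mul_sum]
      _ ≤ 484 * 49 / (32 * M) * ((7 : ℝ) ^ Fintype.card V * (4 * s * d * M)) :=
          mul_le_mul_of_nonneg_left hcore (by positivity)
      _ = 484 * 49 * 4 / 32 * (s * d * (7 : ℝ) ^ Fintype.card V) := by
          field_simp
      _ ≤ 3000 * s * d * (7 : ℝ) ^ Fintype.card V := by nlinarith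

end Pool.Agent.H65.SP2
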