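import Mathlib
import Pool.Agent.H65.SP2.Ex1
import Pool.Agent.H65.SP2.Ex2

/-!
SpKd: the sums over `f` of the potentials.

Proof. In all of them exchange the sums (`Finset.sum_comm`) and bound the inner sum over `f` by a lemma of `Lin`, `Ex1`, `Ex2` (their STATEMENTS); then `Finset.sum_le_card_nsmul` or `sum_const`.
`kdA`: `ct7` with `I = {j}` (`f (ρ v) ∈ {j} ↔ f (ρ v) = j`), `#(T P) ≤ card V`; `7 * m` terms. `kdE`: the same with `7 * m * #Lo` terms.
`kd1`: `dgi G P w = #(P.filter fun u => G.Adj w u)` and `dgi G (P.filter fun v => f (ρ v) = j) w = #((P.filter fun u => G.Adj w u).filter fun v => f (ρ v) = j)` (`Finset.filter_filter`, `and_comm`), so `ex6`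
applies: at most `63 * s * 7 ^ n` for each of the `7 * m * #Lo` triples. `kd2`: `ex10` in the same way for each of the `m * #Lo` pairs.
`kd3`: `ex36` for each of the `49 * m ^ 2` quadruples, `kd4`: `ex22` for each of the `m ^ 2` pairs (`T P = pt nd P` or a part of it; `hd` is used on `T P ∪ T P'`).
-/

set_option autoImplicit false

namespace Pool.Agent.H65.SP2

open Finset Classical
open Pool.Agent.H71.DN Pool.Agent.H71.DX Pool.Agent.H71.DR Pool.Agent.H71.HL Pool.Agent.H71.DC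
open Pool.Agent.H71.TD

private theorem Kd_ex {α β : Type} [Fintype β] (A : Finset α) (g : β → α → ℝ) (C : ℝ)
    (h : ∀ a ∈ A, ∑ f, g f a ≤ C) : ∑ f, ∑ a ∈ A, g f a ≤ (A.card : ℝ) * C := by
  rw [Finset.sum_comm]
  exact (Finset.sum_le_card_nsmul A _ C h).trans_eq (nsmul_eq_mul _ _)

private theorem Kd_one {V : Type} [Fintype V] (ρ : V → V) (s : ℕ)
    (hρ : ∀ u, (univ.filter fun v => ρ v = u).card ≤ s) (T : Finset V) (j : Fin 7) :
    ∑ f : V → Fin 7, (((T.filter fun v => f (ρ v) = j).card : ℝ) - (T.card : ℝ) / 7) ^ 2 ≤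
      s * Fintype.card V * (7 : ℝ) ^ Fintype.card V := by
  have h := ct7 ρ s hρ T {j}
  simp only [mem_singleton, card_singleton, Nat.cast_one] at h
  have h1 : ∑ f : V → Fin 7, (((T.filter fun v => f (ρ v) = j).card : ℝ) - (T.card : ℝ) / 7) ^ 2 =
      ∑ f : V → Fin 7, (((T.filter fun v => f (ρ v) = j).card : ℝ) - 1 / 7 * T.card) ^ 2 := by
    refine Finset.sum_congr rfl fun f _ => ?_
    ring
  rw [h1]
  refine h.trans ?_
  have h2 : (T.card : ℝ) ≤ Fintype.card V := by exact_mod_cast Finset.card_le_univ T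
  have h3 : (s : ℝ) * T.card ≤ s * Fintype.card V := mul_le_mul_of_nonneg_left h2 (Nat.cast_nonneg _)
  have h4 : (0 : ℝ) ≤ (7 : ℝ) ^ Fintype.card V := by positivity
  have h5 := mul_le_mul_of_nonneg_left h3 h4
  linarith

private theorem Kd_seven : ((univ : Finset (Fin 7)).card : ℝ) = 7 := by
  rw [Finset.card_univ, Fintype.card_fin]
  norm_num

theorem kdA {V : Type} [Fintype V] (ρ : V → V) (s : ℕ)
    (hρ : ∀ u, (univ.filter fun v => ρ v = u).card ≤ s) (m : ℕ) (T : ℕ → Finset V) :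
    ∑ f : V → Fin 7, ∑ P ∈ range m, ∑ j : Fin 7,
      ((((T P).filter fun v => f (ρ v) = j).card : ℝ) - ((T P).card : ℝ) / 7) ^ 2 ≤
      7 * m * s * Fintype.card V * (7 : ℝ) ^ Fintype.card V := by
  refine (Kd_ex (range m) (fun (f : V → Fin 7) P => ∑ j : Fin 7,
      ((((T P).filter fun v => f (ρ v) = j).card : ℝ) - ((T P).card : ℝ) / 7) ^ 2)
      (7 * (s * Fintype.card V * (7 : ℝ) ^ Fintype.card V)) fun P _ => ?_).trans_eq ?_
  · have h := Kd_ex univ (fun (f : V → Fin 7) (j : Fin 7) =>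
      ((((T P).filter fun v => f (ρ v) = j).card : ℝ) - ((T P).card : ℝ) / 7) ^ 2)
      (s * Fintype.card V * (7 : ℝ) ^ Fintype.card V) fun j _ => Kd_one ρ s hρ (T P) j
    rwa [Kd_seven] at h
  · rw [card_range]
    ring

theorem kdE {V : Type} [Fintype V] (ρ : V → V) (s : ℕ)
    (hρ : ∀ u, (univ.filter fun v => ρ v = u).card ≤ s) (m : ℕ) (Lo : Finset V)
    (T : V → ℕ → Finset V) :
    ∑ f : V → Fin 7, ∑ w ∈ Lo, ∑ P ∈ range m, ∑ j : Fin 7,
      ((((T w P).filter fun v => f (ρ v) = j).card : ℝ) - ((T w P).card : ℝ) / 7) ^ 2 ≤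
      7 * m * s * Lo.card * Fintype.card V * (7 : ℝ) ^ Fintype.card V := by
  refine (Kd_ex Lo (fun (f : V → Fin 7) w => ∑ P ∈ range m, ∑ j : Fin 7,
      ((((T w P).filter fun v => f (ρ v) = j).card : ℝ) - ((T w P).card : ℝ) / 7) ^ 2)
      (7 * m * s * Fintype.card V * (7 : ℝ) ^ Fintype.card V) fun w _ =>
        kdA ρ s hρ m (T w)).trans_eq ?_
  ring

theorem kd1 {V : Type} [Fintype V] (G : SimpleGraph V) (ρ : V → V) (s : ℕ)
    (hρ : ∀ u, (univ.filter fun v => ρ v = u).card ≤ s) (m : ℕ) (Lo : Finset V)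
    (T : ℕ → Finset V) :
    ∑ f : V → Fin 7, ∑ w ∈ Lo, ∑ P ∈ range m, ∑ j : Fin 7,
      ((6 * dgi G ((T P).filter fun v => f (ρ v) = j) w - dgi G (T P) w : ℕ) : ℝ) ≤
      441 * m * s * Lo.card * (7 : ℝ) ^ Fintype.card V := by
  refine (Kd_ex Lo (fun (f : V → Fin 7) w => ∑ P ∈ range m, ∑ j : Fin 7,
      ((6 * dgi G ((T P).filter fun v => f (ρ v) = j) w - dgi G (T P) w : ℕ) : ℝ))
      (m * (7 * (63 * s * (7 : ℝ) ^ Fintype.card V))) fun w _ => ?_).trans_eq (by ring)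
  refine (Kd_ex (range m) (fun (f : V → Fin 7) P => ∑ j : Fin 7,
      ((6 * dgi G ((T P).filter fun v => f (ρ v) = j) w - dgi G (T P) w : ℕ) : ℝ))
      (7 * (63 * s * (7 : ℝ) ^ Fintype.card V)) fun P _ => ?_).trans_eq (by rw [card_range])
  have h := Kd_ex univ (fun (f : V → Fin 7) (j : Fin 7) =>
      ((6 * dgi G ((T P).filter fun v => f (ρ v) = j) w - dgi G (T P) w : ℕ) : ℝ))
      (63 * s * (7 : ℝ) ^ Fintype.card V) fun j _ => by
    have h1 := ex6 ρ s hρ ((T P).filter fun u => G.Adj w u) j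
    have h2 : ∀ f : V → Fin 7, dgi G ((T P).filter fun v => f (ρ v) = j) w =
        (((T P).filter fun u => G.Adj w u).filter fun v => f (ρ v) = j).card := by
      intro f
      unfold dgi
      rw [Finset.filter_comm]
    have h3 : dgi G (T P) w = ((T P).filter fun u => G.Adj w u).card := rfl
    simp only [h2, h3]
    exact h1
  rwa [Kd_seven] at h

theorem kd2 {V : Type} [Fintype V] (G : SimpleGraph V) (ρ : V → V) (s : ℕ)
    (hρ : ∀ u, (univ.filter fun v => ρ v = u).card ≤ s) (m : ℕ) (Lo : Finset V)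
    (T : ℕ → Finset V) :
    ∑ f : V → Fin 7, ∑ w ∈ Lo, ∑ P ∈ range m,
      ((8 * dgi G (T P) w - 10 * dgi G ((T P).filter fun v => f (ρ v) ≠ 0) w : ℕ) : ℝ) ≤
      44 * m * s * Lo.card * (7 : ℝ) ^ Fintype.card V := by
  refine (Kd_ex Lo (fun (f : V → Fin 7) w => ∑ P ∈ range m,
      ((8 * dgi G (T P) w - 10 * dgi G ((T P).filter fun v => f (ρ v) ≠ 0) w : ℕ) : ℝ))
      (m * (44 * s * (7 : ℝ) ^ Fintype.card V)) fun w _ => ?_).trans_eq (by ring)
  refine (Kd_ex (range m) (fun (f : V → Fin 7) P =>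
      ((8 * dgi G (T P) w - 10 * dgi G ((T P).filter fun v => f (ρ v) ≠ 0) w : ℕ) : ℝ))
      (44 * s * (7 : ℝ) ^ Fintype.card V) fun P _ => ?_).trans_eq (by rw [card_range])
  have h1 := ex10 ρ s hρ ((T P).filter fun u => G.Adj w u)
  have h2 : ∀ f : V → Fin 7, dgi G ((T P).filter fun v => f (ρ v) ≠ 0) w =
      (((T P).filter fun u => G.Adj w u).filter fun v => f (ρ v) ≠ 0).card := by
    intro f
    unfold dgi
    rw [Finset.filter_comm]
  have h3 : dgi G (T P) w = ((T P).filter fun u => G.Adj w u).card := rfl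
  simp only [h2, h3]
  exact h1

theorem kd3 {V : Type} [Fintype V] (ρ : V → V) (s : ℕ)
    (hρ : ∀ u, (univ.filter fun v => ρ v = u).card ≤ s) (F : SimpleGraph V)
    (hF : ∀ a b, F.Adj a b → ρ a ≠ ρ b) (m : ℕ) (T : ℕ → Finset V) (d : ℝ) (hd0 : 0 ≤ d)
    (hd : ∀ P < m, ∀ v ∈ T P, (dg F v : ℝ) ≤ d) :
    ∑ f : V → Fin 7, ∑ P ∈ range m, ∑ P' ∈ range m, ∑ i : Fin 7, ∑ j : Fin 7,
      ((36 * ee F ((T P).filter fun v => f (ρ v) = i) ((T P').filter fun v => f (ρ v) = j) -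
        ee F (T P) (T P') : ℕ) : ℝ) ≤ 245000 * m ^ 2 * s * d * (7 : ℝ) ^ Fintype.card V := by
  refine (Kd_ex (range m) (fun (f : V → Fin 7) P => ∑ P' ∈ range m, ∑ i : Fin 7, ∑ j : Fin 7,
      ((36 * ee F ((T P).filter fun v => f (ρ v) = i) ((T P').filter fun v => f (ρ v) = j) -
        ee F (T P) (T P') : ℕ) : ℝ))
      (m * (7 * (7 * (5000 * s * d * (7 : ℝ) ^ Fintype.card V)))) fun P hP => ?_).trans_eq
        (by rw [card_range]; ring)
  refine (Kd_ex (range m) (fun (f : V → Fin 7) P' => ∑ i : Fin 7, ∑ j : Fin 7,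
      ((36 * ee F ((T P).filter fun v => f (ρ v) = i) ((T P').filter fun v => f (ρ v) = j) -
        ee F (T P) (T P') : ℕ) : ℝ))
      (7 * (7 * (5000 * s * d * (7 : ℝ) ^ Fintype.card V))) fun P' hP' => ?_).trans_eq
        (by rw [card_range])
  have hdd : ∀ v ∈ T P ∪ T P', (dg F v : ℝ) ≤ d := by
    intro v hv
    rcases mem_union.1 hv with h | h
    · exact hd P (mem_range.1 hP) v h
    · exact hd P' (mem_range.1 hP') v h
  have h := Kd_ex univ (fun (f : V → Fin 7) (i : Fin 7) => ∑ j : Fin 7,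
      ((36 * ee F ((T P).filter fun v => f (ρ v) = i) ((T P').filter fun v => f (ρ v) = j) -
        ee F (T P) (T P') : ℕ) : ℝ))
      (7 * (5000 * s * d * (7 : ℝ) ^ Fintype.card V)) fun i _ => by
    have h := Kd_ex univ (fun (f : V → Fin 7) (j : Fin 7) =>
      ((36 * ee F ((T P).filter fun v => f (ρ v) = i) ((T P').filter fun v => f (ρ v) = j) -
        ee F (T P) (T P') : ℕ) : ℝ))
      (5000 * s * d * (7 : ℝ) ^ Fintype.card V) fun j _ =>
        ex36 ρ s hρ F hF (T P) (T P') d hd0 hdd i j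
    rwa [Kd_seven] at h
  rwa [Kd_seven] at h

theorem kd4 {V : Type} [Fintype V] (ρ : V → V) (s : ℕ)
    (hρ : ∀ u, (univ.filter fun v => ρ v = u).card ≤ s) (F : SimpleGraph V)
    (hF : ∀ a b, F.Adj a b → ρ a ≠ ρ b) (m : ℕ) (T : ℕ → Finset V) (d : ℝ) (hd0 : 0 ≤ d)
    (hd : ∀ P < m, ∀ v ∈ T P, (dg F v : ℝ) ≤ d) :
    ∑ f : V → Fin 7, ∑ P ∈ range m, ∑ P' ∈ range m,
      ((16 * ee F (T P) (T P') - 22 * ee F ((T P).filter fun v => f (ρ v) ≠ 0)
        ((T P').filter fun v => f (ρ v) ≠ 0) : ℕ) : ℝ) ≤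
      3000 * m ^ 2 * s * d * (7 : ℝ) ^ Fintype.card V := by
  refine (Kd_ex (range m) (fun (f : V → Fin 7) P => ∑ P' ∈ range m,
      ((16 * ee F (T P) (T P') - 22 * ee F ((T P).filter fun v => f (ρ v) ≠ 0)
        ((T P').filter fun v => f (ρ v) ≠ 0) : ℕ) : ℝ))
      (m * (3000 * s * d * (7 : ℝ) ^ Fintype.card V)) fun P hP => ?_).trans_eq
        (by rw [card_range]; ring)
  refine (Kd_ex (range m) (fun (f : V → Fin 7) P' =>
      ((16 * ee F (T P) (T P') - 22 * ee F ((T P).filter fun v => f (ρ v) ≠ 0)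
        ((T P').filter fun v => f (ρ v) ≠ 0) : ℕ) : ℝ))
      (3000 * s * d * (7 : ℝ) ^ Fintype.card V) fun P' hP' => ?_).trans_eq (by rw [card_range])
  have hdd : ∀ v ∈ T P ∪ T P', (dg F v : ℝ) ≤ d := by
    intro v hv
    rcases mem_union.1 hv with h | h
    · exact hd P (mem_range.1 hP) v h
    · exact hd P' (mem_range.1 hP') v h
  exact ex22 ρ s hρ F hF (T P) (T P') d hd0 hdd

end Pool.Agent.H65.SP2
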