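import Mathlib

/-!
SpUnits: representatives of the units, and the number of units in a class.

Proof. `rep7`: `ρ v := (⟨v, rfl⟩ : ∃ u, un u = un v).choose`; `un (ρ v) = un v` by `choose_spec`; if `un a = un b` then `ρ a = ρ b` because the two predicates are equal (`simp only`
or `congr` with the hypothesis; or choose a function `c : ℕ → V` with `∀ v, un (c (un v)) = un v` and put `ρ v := c (un v)`, with `Nonempty V` by cases); if `ρ a = ρ b`
then `un a = un (ρ a) = un (ρ b) = un b`. The fibre of `ρ` over `u` is contained in the fibre of `un` over `un u` if it is not empty.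
`img7`: `un` is injective on `{v ∈ T | ρ v = v ∧ f (ρ v) = j}` and its image is the same as the image of `{v ∈ T | f (ρ v) = j}`: for `v` in the latter, `ρ v ∈ T` (by `hT`),
`ρ (ρ v) = ρ v` (as `un (ρ v) = un v`), `f (ρ (ρ v)) = f (ρ v) = j`, `un (ρ v) = un v`. (`Finset.card_image_of_injOn`.) `img7'` is the same without `j`.
-/

set_option autoImplicit false

namespace Pool.Agent.H65.SP2

open Finset Classical

theorem rep7 {V : Type} [Fintype V] (un : V → ℕ) (s : ℕ)
    (hs : ∀ u, (univ.filter fun v => un v = u).card ≤ s) :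
    ∃ ρ : V → V, (∀ v, un (ρ v) = un v) ∧ (∀ a b, ρ a = ρ b ↔ un a = un b) ∧
      ∀ u, (univ.filter fun v => ρ v = u).card ≤ s := by
  rcases isEmpty_or_nonempty V with hV | hV
  · exact ⟨fun v => v, fun v => rfl, fun a => (hV.false a).elim, fun u => (hV.false u).elim⟩
  · obtain ⟨c, hc⟩ : ∃ c : ℕ → V, ∀ v, un (c (un v)) = un v := by
      refine ⟨fun n => if h : ∃ u, un u = n then h.choose else Classical.arbitrary V, fun v => ?_⟩
      have h : ∃ u, un u = un v := ⟨v, rfl⟩
      simp only [dif_pos h]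
      exact h.choose_spec
    have hρ : ∀ a b, c (un a) = c (un b) ↔ un a = un b := by
      intro a b
      constructor
      · intro h
        rw [← hc a, ← hc b, h]
      · intro h
        rw [h]
    refine ⟨fun v => c (un v), hc, hρ, fun u => ?_⟩
    refine le_trans (Finset.card_le_card ?_) (hs (un u))
    intro v hv
    simp only [mem_filter, mem_univ, true_and] at hv ⊢
    rw [← hv, hc]

theorem img7 {V : Type} [Fintype V] (un : V → ℕ) (ρ : V → V) (h1 : ∀ v, un (ρ v) = un v)
    (h2 : ∀ a b, ρ a = ρ b ↔ un a = un b) (T : Finset V) (hT : ∀ v ∈ T, ρ v ∈ T)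
    (f : V → Fin 7) (j : Fin 7) :
    ((T.filter fun v => f (ρ v) = j).image un).card =
      ((T.filter fun v => ρ v = v).filter fun v => f (ρ v) = j).card := by
  have h3 : (T.filter fun v => f (ρ v) = j).image un =
      ((T.filter fun v => ρ v = v).filter fun v => f (ρ v) = j).image un := by
    ext n
    simp only [mem_image, mem_filter]
    constructor
    · rintro ⟨v, ⟨hv, hf⟩, rfl⟩
      have h4 : ρ (ρ v) = ρ v := (h2 (ρ v) v).2 (h1 v)
      exact ⟨ρ v, ⟨⟨hT v hv, h4⟩, by rw [h4]; exact hf⟩, h1 v⟩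
    · rintro ⟨v, ⟨⟨hv, -⟩, hf⟩, rfl⟩
      exact ⟨v, ⟨hv, hf⟩, rfl⟩
  rw [h3]
  refine Finset.card_image_of_injOn ?_
  intro a ha b hb hab
  simp only [coe_filter, mem_filter, Set.mem_setOf_eq] at ha hb
  rw [← ha.1.2, ← hb.1.2]
  exact (h2 a b).2 hab

theorem img7' {V : Type} [Fintype V] (un : V → ℕ) (ρ : V → V) (h1 : ∀ v, un (ρ v) = un v)
    (h2 : ∀ a b, ρ a = ρ b ↔ un a = un b) (T : Finset V) (hT : ∀ v ∈ T, ρ v ∈ T) :
    (T.image un).card = (T.filter fun v => ρ v = v).card := by
  have h3 : T.image un = (T.filter fun v => ρ v = v).image un := by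
    ext n
    simp only [mem_image, mem_filter]
    constructor
    · rintro ⟨v, hv, rfl⟩
      exact ⟨ρ v, ⟨hT v hv, (h2 (ρ v) v).2 (h1 v)⟩, h1 v⟩
    · rintro ⟨v, ⟨hv, -⟩, rfl⟩
      exact ⟨v, hv, rfl⟩
  rw [h3]
  refine Finset.card_image_of_injOn ?_
  intro a ha b hb hab
  simp only [coe_filter, Set.mem_setOf_eq] at ha hb
  rw [← ha.2, ← hb.2]
  exact (h2 a b).2 hab

end Pool.Agent.H65.SP2
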