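import Mathlib
import Pool.Agent.H2.F2.Ifu
import Pool.Agent.H71.TD.Spl
import Pool.Agent.H65.SP2.Kd
import Pool.Agent.H65.SP2.Units

/-!
SPL2: the splitting into quarters and the seven classes.

The quarters are those of `spl` (with `f1 / 4`), the class of `v` is `f (ρ v)` for a random function `f : V → Fin 7` and the representative `ρ v` of the
unit of `v`. One function `f` with a small value of the total potential has all properties.
-/

set_option autoImplicit false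

namespace Pool.Agent.H65.SP2

open Finset Classical
open Pool.Agent.H71.DN Pool.Agent.H71.DX Pool.Agent.H71.DR Pool.Agent.H71.HL Pool.Agent.H71.DC
open Pool.Agent.H71.TD Pool.Agent.H2.F2

private theorem sp_avg {α : Type} [Fintype α] (A B : α → ℝ) (a b x y W : ℝ) (ha : 0 < a)
    (hb : 0 < b) (hW : (Fintype.card α : ℝ) = W) (hW0 : 0 < W) (hA0 : ∀ f, 0 ≤ A f)
    (hB0 : ∀ f, 0 ≤ B f) (hA : ∑ f, A f ≤ x * W) (hB : ∑ f, B f ≤ y * W)
    (h : x / a + y / b < 1) : ∃ f, A f ≤ a ∧ B f ≤ b := by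
  by_contra hcon
  have h1 : ∀ f ∈ (univ : Finset α), (1 : ℝ) ≤ A f / a + B f / b := by
    intro f _
    by_cases h2 : A f ≤ a
    · have h3 : b < B f := by
        by_contra h4
        exact hcon ⟨f, h2, not_lt.mp h4⟩
      have h4 : 1 ≤ B f / b := by
        rw [le_div_iff₀ hb]
        linarith
      have h5 : 0 ≤ A f / a := div_nonneg (hA0 f) ha.le
      linarith
    · have h4 : 1 ≤ A f / a := by
        rw [le_div_iff₀ ha]
        linarith [not_le.mp h2]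
      have h5 : 0 ≤ B f / b := div_nonneg (hB0 f) hb.le
      linarith
  have h2 := Finset.sum_le_sum h1
  rw [Finset.sum_const, Finset.card_univ, nsmul_eq_mul, mul_one, hW, Finset.sum_add_distrib,
    ← Finset.sum_div, ← Finset.sum_div] at h2
  have h3 : (∑ f, A f) / a ≤ x / a * W := by
    rw [div_le_iff₀ ha]
    calc ∑ f, A f ≤ x * W := hA
      _ = x / a * W * a := by field_simp
  have h4 : (∑ f, B f) / b ≤ y / b * W := by
    rw [div_le_iff₀ hb]
    calc ∑ f, B f ≤ y * W := hB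
      _ = y / b * W * b := by field_simp
  have h5 : (x / a + y / b) * W < 1 * W := mul_lt_mul_of_pos_right h hW0
  linarith

private theorem sp_le2 (m : ℕ) (g : ℕ → Fin 7 → ℝ) (hg : ∀ P j, 0 ≤ g P j) (P : ℕ) (hP : P < m)
    (j : Fin 7) : g P j ≤ ∑ P ∈ range m, ∑ j : Fin 7, g P j := by
  refine (Finset.single_le_sum (f := fun j => g P j) (fun j _ => hg P j) (mem_univ j)).trans ?_
  exact Finset.single_le_sum (f := fun P => ∑ j : Fin 7, g P j)
    (fun P _ => Finset.sum_nonneg fun j _ => hg P j) (mem_range.mpr hP)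

private theorem sp_sq {x a y : ℝ} (ha : 0 ≤ a) (h : x ^ 2 ≤ y) (hy : y ≤ a ^ 2) : |x| ≤ a :=
  abs_le_of_sq_le_sq (h.trans hy) ha

private theorem sp_le4 (m : ℕ) (g : ℕ → ℕ → Fin 7 → Fin 7 → ℝ) (hg : ∀ P Q i j, 0 ≤ g P Q i j)
    (P Q : ℕ) (hP : P < m) (hQ : Q < m) (i j : Fin 7) :
    g P Q i j ≤ ∑ P ∈ range m, ∑ Q ∈ range m, ∑ i : Fin 7, ∑ j : Fin 7, g P Q i j := by
  refine (Finset.single_le_sum (f := fun j => g P Q i j) (fun j _ => hg P Q i j)
    (mem_univ j)).trans ?_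
  refine (Finset.single_le_sum (f := fun i => ∑ j : Fin 7, g P Q i j)
    (fun i _ => Finset.sum_nonneg fun j _ => hg P Q i j) (mem_univ i)).trans ?_
  refine (Finset.single_le_sum (f := fun Q => ∑ i : Fin 7, ∑ j : Fin 7, g P Q i j)
    (fun Q _ => Finset.sum_nonneg fun i _ => Finset.sum_nonneg fun j _ => hg P Q i j)
    (mem_range.mpr hQ)).trans ?_
  exact Finset.single_le_sum (f := fun P => ∑ Q ∈ range m, ∑ i : Fin 7, ∑ j : Fin 7, g P Q i j)
    (fun P _ => Finset.sum_nonneg fun Q _ => Finset.sum_nonneg fun i _ =>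
      Finset.sum_nonneg fun j _ => hg P Q i j) (mem_range.mpr hP)

private theorem sp_le3 (m : ℕ) (g : ℕ → ℕ → ℝ) (hg : ∀ P Q, 0 ≤ g P Q)
    (P Q : ℕ) (hP : P < m) (hQ : Q < m) :
    g P Q ≤ ∑ P ∈ range m, ∑ Q ∈ range m, g P Q := by
  refine (Finset.single_le_sum (f := fun Q => g P Q) (fun Q _ => hg P Q)
    (mem_range.mpr hQ)).trans ?_
  exact Finset.single_le_sum (f := fun P => ∑ Q ∈ range m, g P Q)
    (fun P _ => Finset.sum_nonneg fun Q _ => hg P Q) (mem_range.mpr hP)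

private theorem sp_num {c e1 f1 f ξ : ℝ} {k L n s : ℕ} (hc : 0 < c) (he1 : 0 < e1)
    (hf1 : 0 < f1) (hk : (k : ℝ) * c ≤ 2) (hn0 : 0 < n) (hn : 448 * (s : ℝ) / (c * e1 ^ 2) < n)
    (hL : (L : ℝ) ≤ f * n) (hf0 : 0 ≤ f) (hfa : f ≤ c * e1 ^ 2 / (112 * (s + 1)))
    (hfb : f ≤ c * f1 / (12688 * (s + 1))) (hξ0 : 0 ≤ ξ)
    (hξ : ξ ≤ c ^ 2 * f1 / (17216000 * (s + 1))) :
    (56 * k * s * n + 14 * k * s * L * n) / (e1 * n) ^ 2 +
      (1234 * k * s * L + 1028000 * k ^ 2 * s * (ξ * n)) / (f1 * n) < 1 := by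
  have hN : (0 : ℝ) < n := by exact_mod_cast hn0
  have hS : (0 : ℝ) ≤ s := Nat.cast_nonneg s
  have hK : (0 : ℝ) ≤ k := Nat.cast_nonneg k
  have hL0 : (0 : ℝ) ≤ L := Nat.cast_nonneg L
  obtain ⟨N, hNd⟩ : ∃ N : ℝ, N = n := ⟨_, rfl⟩
  obtain ⟨S, hSd⟩ : ∃ S : ℝ, S = s := ⟨_, rfl⟩
  obtain ⟨K, hKd⟩ : ∃ K : ℝ, K = k := ⟨_, rfl⟩
  obtain ⟨l, hLd⟩ : ∃ l : ℝ, l = L := ⟨_, rfl⟩
  rw [← hNd, ← hSd, ← hKd, ← hLd]
  rw [← hNd] at hN hn hL
  rw [← hSd] at hS hn hfa hfb hξ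
  rw [← hKd] at hK hk
  rw [← hLd] at hL hL0
  have hce : 0 < c * e1 ^ 2 := by positivity
  have hcf : 0 < c * f1 := by positivity
  have hcf2 : 0 < c ^ 2 * f1 := by positivity
  rw [div_lt_iff₀ hce] at hn
  rw [le_div_iff₀ (by positivity)] at hfa hfb hξ
  -- (1)
  have h1 : 224 * K * S < e1 ^ 2 * N := by
    have h : c * (224 * K * S) < c * (e1 ^ 2 * N) := by
      have h2 : K * c * (224 * S) ≤ 2 * (224 * S) :=
        mul_le_mul_of_nonneg_right hk (by positivity)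
      linarith
    exact lt_of_mul_lt_mul_left h hc.le
  -- (2)
  have h2 : 56 * K * S * l < e1 ^ 2 * N := by
    have h3 : 56 * K * S * l ≤ 56 * K * S * (f * N) :=
      mul_le_mul_of_nonneg_left hL (by positivity)
    have h4 : 56 * K * S * f < e1 ^ 2 := by
      have h : c * (56 * K * S * f) < c * e1 ^ 2 := by
        have h5 : K * c * (56 * S * f) ≤ 2 * (56 * S * f) :=
          mul_le_mul_of_nonneg_right hk (by positivity)
        have h6 : 112 * S * f < c * e1 ^ 2 := by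
          rcases hf0.lt_or_eq with h7 | h7
          · linarith
          · rw [← h7]
            linarith
        linarith
      exact lt_of_mul_lt_mul_left h hc.le
    have h5 : 56 * K * S * f * N < e1 ^ 2 * N := mul_lt_mul_of_pos_right h4 hN
    linarith
  -- (3)
  have h3 : 4936 * K * S * l < f1 * N := by
    have h3 : 4936 * K * S * l ≤ 4936 * K * S * (f * N) :=
      mul_le_mul_of_nonneg_left hL (by positivity)
    have h4 : 4936 * K * S * f < f1 := by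
      have h : c * (4936 * K * S * f) < c * f1 := by
        have h5 : K * c * (4936 * S * f) ≤ 2 * (4936 * S * f) :=
          mul_le_mul_of_nonneg_right hk (by positivity)
        have h6 : 12688 * S * f < c * f1 := by
          rcases hf0.lt_or_eq with h7 | h7
          · linarith
          · rw [← h7]
            linarith
        have h7 : 0 ≤ S * f := mul_nonneg hS hf0
        linarith
      exact lt_of_mul_lt_mul_left h hc.le
    have h5 : 4936 * K * S * f * N < f1 * N := mul_lt_mul_of_pos_right h4 hN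
    linarith
  -- (4)
  have h4 : 4112000 * K ^ 2 * S * (ξ * N) < f1 * N := by
    have h4 : 4112000 * K ^ 2 * S * ξ < f1 := by
      have h : c ^ 2 * (4112000 * K ^ 2 * S * ξ) < c ^ 2 * f1 := by
        have h5 : (K * c) ^ 2 ≤ 4 := by
          have h6 : (K * c) ^ 2 ≤ 2 ^ 2 := pow_le_pow_left₀ (by positivity) hk 2
          linarith
        have h6 : (K * c) ^ 2 * (4112000 * S * ξ) ≤ 4 * (4112000 * S * ξ) :=
          mul_le_mul_of_nonneg_right h5 (by positivity)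
        have h7 : 17216000 * S * ξ < c ^ 2 * f1 := by
          rcases hξ0.lt_or_eq with h7 | h7
          · linarith
          · rw [← h7]
            linarith
        have h8 : 0 ≤ S * ξ := mul_nonneg hS hξ0
        have h9 : c ^ 2 * (4112000 * K ^ 2 * S * ξ) = (K * c) ^ 2 * (4112000 * S * ξ) := by ring
        linarith
      exact lt_of_mul_lt_mul_left h (by positivity)
    have h5 : 4112000 * K ^ 2 * S * ξ * N < f1 * N := mul_lt_mul_of_pos_right h4 hN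
    linarith
  have g1 : (56 * K * S * N + 14 * K * S * l * N) / (e1 * N) ^ 2 < 1 / 2 := by
    rw [div_lt_iff₀ (by positivity)]
    have h5 : 224 * K * S * N < e1 ^ 2 * N * N := mul_lt_mul_of_pos_right h1 hN
    have h6 : 56 * K * S * l * N < e1 ^ 2 * N * N := mul_lt_mul_of_pos_right h2 hN
    have h7 : (e1 * N) ^ 2 = e1 ^ 2 * N * N := by ring
    rw [h7]
    linarith
  have g2 : (1234 * K * S * l + 1028000 * K ^ 2 * S * (ξ * N)) / (f1 * N) < 1 / 2 := by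
    rw [div_lt_iff₀ (by positivity)]
    linarith
  linarith

private theorem sp_img {V : Type} (cl : V → ℕ) (f : V → Fin 7) (ρ : V → V)
    (hcl : ∀ v, cl v = (f (ρ v) : ℕ)) (T : Finset V) (j : ℕ) (hj : j < 7) :
    (T.filter fun v => cl v = j) = T.filter fun v => f (ρ v) = ⟨j, hj⟩ := by
  refine filter_congr fun v _ => ?_
  rw [hcl v, Fin.ext_iff]

private theorem sp_ne {V : Type} (cl : V → ℕ) (f : V → Fin 7) (ρ : V → V)
    (hcl : ∀ v, cl v = (f (ρ v) : ℕ)) (T : Finset V) (X : V → Prop) [DecidablePred X] :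
    (T.filter fun v => X v ∧ cl v ≠ 0) = (T.filter fun v => X v).filter fun v => f (ρ v) ≠ 0 := by
  rw [filter_filter]
  refine filter_congr fun v _ => ?_
  rw [hcl v, Ne, Ne, Fin.ext_iff]
  exact Iff.rfl

theorem spl2 (c η f1 : ℝ) (KE KB s : ℕ) (hc : 0 < c) (hc1 : c ≤ 1) (hη : 0 < η) (hf1 : 0 < f1) :
    ∃ ξ0 : ℝ, 0 < ξ0 ∧ ∀ e1 : ℝ, 0 < e1 → ∃ (f0 : ℝ) (n0 : ℕ), 0 < f0 ∧
      ∀ (V : Type) [Fintype V] (G : SimpleGraph V) (Δ k : ℕ) (x ξ ζ f : ℝ) (ty : ℕ → Prop)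
        (nd : V → ℕ) (sf : ℕ → Finset V), n0 ≤ Fintype.card V → c * Fintype.card V ≤ Δ →
        0 ≤ ξ → ξ ≤ ξ0 → 0 ≤ f → f ≤ f0 → Str G Δ c x ξ ζ f k ty nd sf →
        ∀ un : V → ℕ, (∀ a b, un a = un b → nd a = nd b ∧ ¬ G.Adj a b) →
          (∀ u, (univ.filter fun v => un v = u).card ≤ s) →
          ∃ qt cl : V → ℕ, Spl G k ty nd qt η KE KB f1 ∧ Spl2 G k ty nd qt cl un e1 f1 := by
  obtain ⟨ξ1, fa, n1, hξ1, hfa, hspl⟩ := spl c η (f1 / 4) KE KB hc hc1 hη (by positivity)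
  refine ⟨min ξ1 (c ^ 2 * f1 / (17216000 * (s + 1))), lt_min hξ1 (by positivity), ?_⟩
  intro e1 he1
  refine ⟨min fa (min (c * e1 ^ 2 / (112 * (s + 1))) (c * f1 / (12688 * (s + 1)))),
    n1 + ⌈448 * (s : ℝ) / (c * e1 ^ 2)⌉₊ + 1,
    lt_min hfa (lt_min (by positivity) (by positivity)), ?_⟩
  intro V _ G Δ k x ξ ζ f ty nd sf hn hcΔ hξ0 hξ hf0 hf H un hu hs
  obtain ⟨qt, Q⟩ := hspl V G Δ k x ξ ζ f ty nd sf (by omega) hcΔ hξ0
    (hξ.trans (min_le_left _ _)) hf0 (hf.trans (min_le_left _ _)) H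
  obtain ⟨ρ, r1, r2, r3⟩ := rep7 un s hs
  obtain ⟨n, hnd⟩ : ∃ n : ℕ, n = Fintype.card V := ⟨_, rfl⟩
  have hn0 : 0 < n := by omega
  have hnR : (0 : ℝ) < n := by exact_mod_cast hn0
  have hn2 : 448 * (s : ℝ) / (c * e1 ^ 2) < n := by
    refine (Nat.le_ceil _).trans_lt ?_
    have : ⌈448 * (s : ℝ) / (c * e1 ^ 2)⌉₊ < n := by omega
    exact_mod_cast this
  obtain ⟨F, hFd⟩ : ∃ F : SimpleGraph V, F = Fg G k ty nd := ⟨_, rfl⟩
  have hF : ∀ a b, F.Adj a b → ρ a ≠ ρ b := by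
    intro a b hab he
    rw [hFd] at hab
    exact (hu a b ((r2 a b).mp he)).2 hab.1
  have hdg : ∀ v, nd v < 2 * k → (dg F v : ℝ) ≤ ξ * n := by
    intro v hv
    rw [hFd, hnd]
    exact Pool.Agent.H65.SPL.spD G Δ c x ξ ζ f k ty nd sf H v hv
  obtain ⟨Lo, hLo⟩ : ∃ Lo : Finset V, Lo = pt nd (2 * k) := ⟨_, rfl⟩
  have hloc : (Lo.card : ℝ) ≤ f * n := by
    rw [hLo, hnd]
    exact H.lo
  obtain ⟨W, hW⟩ : ∃ W : ℝ, W = (7 : ℝ) ^ Fintype.card V := ⟨_, rfl⟩
  have hW0 : 0 < W := by rw [hW]; positivity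
  have hξn : 0 ≤ ξ * n := by positivity
  let TX : ℕ → Finset V := fun P => (pt nd P).filter fun v => qt v < 2
  let TY : ℕ → Finset V := fun P => (pt nd P).filter fun v => 2 ≤ qt v
  let TR : ℕ → Finset V := fun P => (pt nd P).filter fun v => ρ v = v
  let TN : V → ℕ → Finset V := fun w P => (pt nd P).filter fun v => ¬ G.Adj w v
  have A1 := kdA ρ s r3 (2 * k) (fun P => pt nd P)
  have A2 := kdA ρ s r3 (2 * k) TX
  have A3 := kdA ρ s r3 (2 * k) TY
  have A4 := kdA ρ s r3 (2 * k) TR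
  have A5 := kdE ρ s r3 (2 * k) Lo TN
  have B1 := kd1 G ρ s r3 (2 * k) Lo (fun P => pt nd P)
  have B2 := kd2 G ρ s r3 (2 * k) Lo TX
  have B3 := kd2 G ρ s r3 (2 * k) Lo TY
  have C1 := kd3 ρ s r3 F hF (2 * k) (fun P => pt nd P) (ξ * n) hξn (by
    intro P hP v hv
    have h1 : nd v = P := (mem_filter.mp hv).2
    exact hdg v (by rw [h1]; exact hP))
  have C2 := kd4 ρ s r3 F hF (2 * k) TX (ξ * n) hξn (by
    intro P hP v hv
    have h1 : nd v = P := (mem_filter.mp (mem_filter.mp hv).1).2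
    exact hdg v (by rw [h1]; exact hP))
  have C3 := kd4 ρ s r3 F hF (2 * k) TY (ξ * n) hξn (by
    intro P hP v hv
    have h1 : nd v = P := (mem_filter.mp (mem_filter.mp hv).1).2
    exact hdg v (by rw [h1]; exact hP))
  rw [← hnd] at A1 A2 A3 A4 A5 B1 B2 B3 C1 C2 C3 hW
  rw [← hW] at A1 A2 A3 A4 A5 B1 B2 B3 C1 C2 C3
  obtain ⟨a1, ha1⟩ : ∃ a1 : (V → Fin 7) → ℝ, a1 = fun g => ∑ P ∈ range (2 * k), ∑ j : Fin 7,
    ((((pt nd P).filter fun v => g (ρ v) = j).card : ℝ) - ((pt nd P).card : ℝ) / 7) ^ 2 :=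
    ⟨_, rfl⟩
  obtain ⟨a2, ha2⟩ : ∃ a2 : (V → Fin 7) → ℝ, a2 = fun g => ∑ P ∈ range (2 * k), ∑ j : Fin 7,
    ((((TX P).filter fun v => g (ρ v) = j).card : ℝ) - ((TX P).card : ℝ) / 7) ^ 2 :=
    ⟨_, rfl⟩
  obtain ⟨a3, ha3⟩ : ∃ a3 : (V → Fin 7) → ℝ, a3 = fun g => ∑ P ∈ range (2 * k), ∑ j : Fin 7,
    ((((TY P).filter fun v => g (ρ v) = j).card : ℝ) - ((TY P).card : ℝ) / 7) ^ 2 :=
    ⟨_, rfl⟩
  obtain ⟨a4, ha4⟩ : ∃ a4 : (V → Fin 7) → ℝ, a4 = fun g => ∑ P ∈ range (2 * k), ∑ j : Fin 7,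
    ((((TR P).filter fun v => g (ρ v) = j).card : ℝ) - ((TR P).card : ℝ) / 7) ^ 2 :=
    ⟨_, rfl⟩
  obtain ⟨a5, ha5⟩ : ∃ a5 : (V → Fin 7) → ℝ, a5 = fun g => ∑ w ∈ Lo, ∑ P ∈ range (2 * k),
    ∑ j : Fin 7, ((((TN w P).filter fun v => g (ρ v) = j).card : ℝ) -
      ((TN w P).card : ℝ) / 7) ^ 2 := ⟨_, rfl⟩
  obtain ⟨b1, hb1⟩ : ∃ b1 : (V → Fin 7) → ℝ, b1 = fun g => ∑ w ∈ Lo, ∑ P ∈ range (2 * k),
    ∑ j : Fin 7, ((6 * dgi G ((pt nd P).filter fun v => g (ρ v) = j) w -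
      dgi G (pt nd P) w : ℕ) : ℝ) := ⟨_, rfl⟩
  obtain ⟨b2, hb2⟩ : ∃ b2 : (V → Fin 7) → ℝ, b2 = fun g => ∑ w ∈ Lo, ∑ P ∈ range (2 * k),
    ((8 * dgi G (TX P) w - 10 * dgi G ((TX P).filter fun v => g (ρ v) ≠ 0) w : ℕ) : ℝ) :=
    ⟨_, rfl⟩
  obtain ⟨b3, hb3⟩ : ∃ b3 : (V → Fin 7) → ℝ, b3 = fun g => ∑ w ∈ Lo, ∑ P ∈ range (2 * k),
    ((8 * dgi G (TY P) w - 10 * dgi G ((TY P).filter fun v => g (ρ v) ≠ 0) w : ℕ) : ℝ) :=
    ⟨_, rfl⟩
  obtain ⟨c1, hc1d⟩ : ∃ c1 : (V → Fin 7) → ℝ, c1 = fun g => ∑ P ∈ range (2 * k),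
    ∑ P' ∈ range (2 * k), ∑ i : Fin 7, ∑ j : Fin 7,
      ((36 * ee F ((pt nd P).filter fun v => g (ρ v) = i) ((pt nd P').filter fun v => g (ρ v) = j) -
        ee F (pt nd P) (pt nd P') : ℕ) : ℝ) := ⟨_, rfl⟩
  obtain ⟨c2, hc2d⟩ : ∃ c2 : (V → Fin 7) → ℝ, c2 = fun g => ∑ P ∈ range (2 * k),
    ∑ P' ∈ range (2 * k), ((16 * ee F (TX P) (TX P') -
      22 * ee F ((TX P).filter fun v => g (ρ v) ≠ 0)
        ((TX P').filter fun v => g (ρ v) ≠ 0) : ℕ) : ℝ) := ⟨_, rfl⟩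
  obtain ⟨c3, hc3d⟩ : ∃ c3 : (V → Fin 7) → ℝ, c3 = fun g => ∑ P ∈ range (2 * k),
    ∑ P' ∈ range (2 * k), ((16 * ee F (TY P) (TY P') -
      22 * ee F ((TY P).filter fun v => g (ρ v) ≠ 0)
        ((TY P').filter fun v => g (ρ v) ≠ 0) : ℕ) : ℝ) := ⟨_, rfl⟩
  have pa1 : ∀ g, 0 ≤ a1 g := by
    intro g
    rw [ha1]
    exact sum_nonneg fun _ _ => sum_nonneg fun _ _ => sq_nonneg _
  have pa2 : ∀ g, 0 ≤ a2 g := by
    intro g
    rw [ha2]
    exact sum_nonneg fun _ _ => sum_nonneg fun _ _ => sq_nonneg _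
  have pa3 : ∀ g, 0 ≤ a3 g := by
    intro g
    rw [ha3]
    exact sum_nonneg fun _ _ => sum_nonneg fun _ _ => sq_nonneg _
  have pa4 : ∀ g, 0 ≤ a4 g := by
    intro g
    rw [ha4]
    exact sum_nonneg fun _ _ => sum_nonneg fun _ _ => sq_nonneg _
  have pa5 : ∀ g, 0 ≤ a5 g := by
    intro g
    rw [ha5]
    exact sum_nonneg fun _ _ => sum_nonneg fun _ _ => sum_nonneg fun _ _ => sq_nonneg _
  have pb1 : ∀ g, 0 ≤ b1 g := by
    intro g
    rw [hb1]
    exact sum_nonneg fun _ _ => sum_nonneg fun _ _ => sum_nonneg fun _ _ => Nat.cast_nonneg _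
  have pb2 : ∀ g, 0 ≤ b2 g := by
    intro g
    rw [hb2]
    exact sum_nonneg fun _ _ => sum_nonneg fun _ _ => Nat.cast_nonneg _
  have pb3 : ∀ g, 0 ≤ b3 g := by
    intro g
    rw [hb3]
    exact sum_nonneg fun _ _ => sum_nonneg fun _ _ => Nat.cast_nonneg _
  have pc1 : ∀ g, 0 ≤ c1 g := by
    intro g
    rw [hc1d]
    exact sum_nonneg fun _ _ => sum_nonneg fun _ _ => sum_nonneg fun _ _ => sum_nonneg fun _ _ =>
      Nat.cast_nonneg _
  have pc2 : ∀ g, 0 ≤ c2 g := by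
    intro g
    rw [hc2d]
    exact sum_nonneg fun _ _ => sum_nonneg fun _ _ => Nat.cast_nonneg _
  have pc3 : ∀ g, 0 ≤ c3 g := by
    intro g
    rw [hc3d]
    exact sum_nonneg fun _ _ => sum_nonneg fun _ _ => Nat.cast_nonneg _
  have hkey := sp_num (L := Lo.card) hc he1 hf1 H.kc hn0 hn2 hloc hf0
    (hf.trans ((min_le_right _ _).trans (min_le_left _ _)))
    (hf.trans ((min_le_right _ _).trans (min_le_right _ _))) hξ0 (hξ.trans (min_le_right _ _))
  obtain ⟨g, hgA, hgB⟩ := sp_avg (α := V → Fin 7)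
    (fun g => a1 g + a2 g + a3 g + a4 g + a5 g)
    (fun g => b1 g + 2 * (b2 g + b3 g) + c1 g + 2 * (c2 g + c3 g)) ((e1 * n) ^ 2) (f1 * n)
    (56 * k * s * n + 14 * k * s * Lo.card * n)
    (1234 * k * s * Lo.card + 1028000 * k ^ 2 * s * (ξ * n)) W (by positivity) (by positivity)
    (by
      rw [Fintype.card_fun, Fintype.card_fin, hW, hnd]
      push_cast
      rfl) hW0
    (fun g => by
      have := pa1 g
      have := pa2 g
      have := pa3 g
      have := pa4 g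
      have := pa5 g
      positivity)
    (fun g => by
      have := pb1 g
      have := pb2 g
      have := pb3 g
      have := pc1 g
      have := pc2 g
      have := pc3 g
      positivity)
    (by
      rw [sum_add_distrib, sum_add_distrib, sum_add_distrib, sum_add_distrib, ha1, ha2, ha3, ha4,
        ha5]
      push_cast at A1 A2 A3 A4 A5
      linarith)
    (by
      rw [sum_add_distrib, sum_add_distrib, sum_add_distrib, ← mul_sum, ← mul_sum,
        sum_add_distrib, sum_add_distrib, hb1, hb2, hb3, hc1d, hc2d, hc3d]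
      push_cast at B1 B2 B3 C1 C2 C3
      linarith)
    hkey
  have hgA : a1 g + a2 g + a3 g + a4 g + a5 g ≤ (e1 * n) ^ 2 := hgA
  have hgB : b1 g + 2 * (b2 g + b3 g) + c1 g + 2 * (c2 g + c3 g) ≤ f1 * n := hgB
  have ha1' : a1 g ≤ (e1 * n) ^ 2 := by linarith [pa2 g, pa3 g, pa4 g, pa5 g]
  have ha2' : a2 g ≤ (e1 * n) ^ 2 := by linarith [pa1 g, pa3 g, pa4 g, pa5 g]
  have ha3' : a3 g ≤ (e1 * n) ^ 2 := by linarith [pa1 g, pa2 g, pa4 g, pa5 g]
  have ha4' : a4 g ≤ (e1 * n) ^ 2 := by linarith [pa1 g, pa2 g, pa3 g, pa5 g]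
  have ha5' : a5 g ≤ (e1 * n) ^ 2 := by linarith [pa1 g, pa2 g, pa3 g, pa4 g]
  have hb1' : b1 g ≤ f1 * n := by linarith [pb2 g, pb3 g, pc1 g, pc2 g, pc3 g]
  have hb2' : b2 g + b3 g ≤ f1 / 2 * n := by linarith [pb1 g, pc1 g, pc2 g, pc3 g]
  have hc1' : c1 g ≤ f1 * n := by linarith [pb1 g, pb2 g, pb3 g, pc2 g, pc3 g]
  have hc2' : c2 g ≤ f1 / 2 * n := by linarith [pb1 g, pb2 g, pb3 g, pc1 g, pc3 g]
  have hc3' : c3 g ≤ f1 / 2 * n := by linarith [pb1 g, pb2 g, pb3 g, pc1 g, pc2 g]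
  have hen : 0 ≤ e1 * n := by positivity
  obtain ⟨cl, hcl⟩ : ∃ cl : V → ℕ, ∀ v, cl v = (g (ρ v) : ℕ) := ⟨_, fun _ => rfl⟩
  refine ⟨qt, cl, ?_, ?_⟩
  · refine ⟨Q.lt, Q.eq, Q.bs, Q.smE, Q.smA, Q.smB, ?_, ?_⟩
    · refine Q.gs1.trans ?_
      rw [← hnd]
      have : 0 ≤ f1 * n := by positivity
      linarith
    · intro i hi j hj
      have h1 := Q.gs2 i hi j hj
      rw [← hnd] at h1 ⊢
      have : 0 ≤ f1 * n := by positivity
      exact ⟨by linarith [h1.1], by linarith [h1.2]⟩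
  · rw [ha1] at ha1'
    rw [ha2] at ha2'
    rw [ha3] at ha3'
    rw [ha4] at ha4'
    rw [ha5] at ha5'
    rw [hb1] at hb1'
    rw [hb2, hb3] at hb2'
    rw [hc1d] at hc1'
    rw [hc2d] at hc2'
    rw [hc3d] at hc3'
    have hcu : ∀ a b, un a = un b → cl a = cl b := by
      intro a b hab
      rw [hcl a, hcl b, (r2 a b).mpr hab]
    refine ⟨?_, hcu, ?_, ?_, ?_, ?_, ?_, ?_, ?_, ?_, ?_⟩
    · intro v
      rw [hcl v]
      exact (g (ρ v)).isLt
    · intro P hP j hj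
      rw [sp_img cl g ρ hcl _ j hj, ← hnd]
      exact sp_sq hen (sp_le2 (2 * k) (fun P j =>
        ((((pt nd P).filter fun v => g (ρ v) = j).card : ℝ) - ((pt nd P).card : ℝ) / 7) ^ 2)
        (fun _ _ => sq_nonneg _) P hP ⟨j, hj⟩) ha1'
    · intro P hP j hj
      rw [← filter_filter, sp_img cl g ρ hcl _ j hj, ← hnd]
      exact sp_sq hen (sp_le2 (2 * k) (fun P j =>
        ((((TX P).filter fun v => g (ρ v) = j).card : ℝ) - ((TX P).card : ℝ) / 7) ^ 2)
        (fun _ _ => sq_nonneg _) P hP ⟨j, hj⟩) ha2'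
    · intro P hP j hj
      rw [← filter_filter, sp_img cl g ρ hcl _ j hj, ← hnd]
      exact sp_sq hen (sp_le2 (2 * k) (fun P j =>
        ((((TY P).filter fun v => g (ρ v) = j).card : ℝ) - ((TY P).card : ℝ) / 7) ^ 2)
        (fun _ _ => sq_nonneg _) P hP ⟨j, hj⟩) ha3'
    · intro i hi _ j hj
      have hT : ∀ v ∈ pt nd (2 * i), ρ v ∈ pt nd (2 * i) := by
        intro v hv
        have h1 : nd v = 2 * i := (mem_filter.mp hv).2
        refine mem_filter.mpr ⟨mem_univ _, ?_⟩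
        rw [(hu (ρ v) v (r1 v)).1]
        exact h1
      rw [sp_img cl g ρ hcl _ j hj, img7 un ρ r1 r2 _ hT g ⟨j, hj⟩, img7' un ρ r1 r2 _ hT, ← hnd]
      exact sp_sq hen (sp_le2 (2 * k) (fun P j =>
        ((((TR P).filter fun v => g (ρ v) = j).card : ℝ) - ((TR P).card : ℝ) / 7) ^ 2)
        (fun _ _ => sq_nonneg _) (2 * i) (by omega) ⟨j, hj⟩) ha4'
    · intro w hw P hP j hj
      have h1 : ((pt nd P).filter fun v => cl v = j ∧ ¬ G.Adj w v) =
          (TN w P).filter fun v => g (ρ v) = ⟨j, hj⟩ := by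
        rw [← sp_img cl g ρ hcl _ j hj, filter_filter]
        exact filter_congr fun v _ => and_comm
      rw [h1, ← hnd]
      rw [← hLo] at hw
      have h2 := Finset.single_le_sum (f := fun w => ∑ P ∈ range (2 * k), ∑ j : Fin 7,
        ((((TN w P).filter fun v => g (ρ v) = j).card : ℝ) - ((TN w P).card : ℝ) / 7) ^ 2)
        (fun _ _ => sum_nonneg fun _ _ => sum_nonneg fun _ _ => sq_nonneg _) hw
      exact sp_sq hen ((sp_le2 (2 * k) (fun P j =>
        ((((TN w P).filter fun v => g (ρ v) = j).card : ℝ) - ((TN w P).card : ℝ) / 7) ^ 2)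
        (fun _ _ => sq_nonneg _) P hP ⟨j, hj⟩).trans h2) ha5'
    · rw [← hnd]
      refine le_trans (le_of_eq ?_) hb1'
      rw [hLo]
      push_cast
      refine sum_congr rfl fun w _ => sum_congr rfl fun P _ => ?_
      rw [Finset.sum_range]
      refine sum_congr rfl fun j _ => ?_
      rw [sp_img cl g ρ hcl _ (j : ℕ) j.isLt]
    · rw [← hnd]
      have h1 := Q.gs1
      rw [← hnd] at h1
      rw [hLo] at hb2'
      have h2 : ((∑ w ∈ pt nd (2 * k), ∑ P ∈ range (2 * k),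
          ((dgi G (pt nd P) w - 10 * dgi G ((pt nd P).filter fun v => qt v < 2 ∧ cl v ≠ 0) w) +
            (dgi G (pt nd P) w - 10 * dgi G ((pt nd P).filter fun v => 2 ≤ qt v ∧ cl v ≠ 0) w)) :
              ℕ) : ℝ) ≤
          ((∑ w ∈ pt nd (2 * k), ∑ j ∈ range (2 * k),
            ((dgi G (pt nd j) w - 8 * dgi G ((pt nd j).filter fun v => qt v < 2) w) +
              (dgi G (pt nd j) w - 8 * dgi G ((pt nd j).filter fun v => 2 ≤ qt v) w)) : ℕ) : ℝ) +
          ((∑ w ∈ pt nd (2 * k), ∑ P ∈ range (2 * k),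
            (8 * dgi G (TX P) w - 10 * dgi G ((TX P).filter fun v => g (ρ v) ≠ 0) w) : ℕ) : ℝ) +
          ((∑ w ∈ pt nd (2 * k), ∑ P ∈ range (2 * k),
            (8 * dgi G (TY P) w - 10 * dgi G ((TY P).filter fun v => g (ρ v) ≠ 0) w) : ℕ) : ℝ) := by
        rw [← Nat.cast_add, ← Nat.cast_add, Nat.cast_le, ← sum_add_distrib, ← sum_add_distrib]
        refine sum_le_sum fun w _ => ?_
        rw [← sum_add_distrib, ← sum_add_distrib]
        refine sum_le_sum fun P _ => ?_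
        rw [sp_ne cl g ρ hcl (pt nd P) (fun v => qt v < 2),
          sp_ne cl g ρ hcl (pt nd P) (fun v => 2 ≤ qt v)]
        simp only [TX, TY]
        omega
      push_cast at h2 hb2' h1 ⊢
      have h3 : 0 ≤ f1 * n := by positivity
      linarith
    · intro P hP P' hP' j hj j' hj'
      rw [← hnd, ← hFd, sp_img cl g ρ hcl _ j hj, sp_img cl g ρ hcl _ j' hj']
      have h1 := (sp_le4 (2 * k) (fun P P' i j => ((36 * ee F ((pt nd P).filter fun v =>
        g (ρ v) = i) ((pt nd P').filter fun v => g (ρ v) = j) -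
        ee F (pt nd P) (pt nd P') : ℕ) : ℝ)) (fun _ _ _ _ => Nat.cast_nonneg _) P P' hP hP'
        ⟨j, hj⟩ ⟨j', hj'⟩).trans hc1'
      have h2 : ((36 * ee F ((pt nd P).filter fun v =>
        g (ρ v) = ⟨j, hj⟩) ((pt nd P').filter fun v => g (ρ v) = ⟨j', hj'⟩) : ℕ) : ℝ) ≤
          ((ee F (pt nd P) (pt nd P') + (36 * ee F ((pt nd P).filter fun v =>
        g (ρ v) = ⟨j, hj⟩) ((pt nd P').filter fun v => g (ρ v) = ⟨j', hj'⟩) -
        ee F (pt nd P) (pt nd P')) : ℕ) : ℝ) := by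
        rw [Nat.cast_le]
        omega
      rw [Nat.cast_add, Nat.cast_mul] at h2
      push_cast at h2
      linarith
    · intro P hP P' hP'
      rw [← hnd, ← hFd]
      have h0 := Q.gs2 P hP P' hP'
      rw [← hFd, ← hnd] at h0
      constructor
      · have h1 := (sp_le3 (2 * k) (fun P P' => ((16 * ee F (TX P) (TX P') -
          22 * ee F ((TX P).filter fun v => g (ρ v) ≠ 0)
            ((TX P').filter fun v => g (ρ v) ≠ 0) : ℕ) : ℝ)) (fun _ _ => Nat.cast_nonneg _) P P'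
          hP hP').trans hc2'
        have h2 : ((16 * ee F (TX P) (TX P') : ℕ) : ℝ) ≤
            ((22 * ee F ((TX P).filter fun v => g (ρ v) ≠ 0)
            ((TX P').filter fun v => g (ρ v) ≠ 0) + (16 * ee F (TX P) (TX P') -
          22 * ee F ((TX P).filter fun v => g (ρ v) ≠ 0)
            ((TX P').filter fun v => g (ρ v) ≠ 0)) : ℕ) : ℝ) := by
          rw [Nat.cast_le]
          omega
        rw [Nat.cast_add, Nat.cast_mul, Nat.cast_mul] at h2
        push_cast at h2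
        have h3 := h0.1
        rw [sp_ne cl g ρ hcl (pt nd P) (fun v => qt v < 2),
          sp_ne cl g ρ hcl (pt nd P') (fun v => qt v < 2)]
        have h4 : 0 ≤ f1 * n := by positivity
        simp only [TX] at h1 h2
        linarith
      · have h1 := (sp_le3 (2 * k) (fun P P' => ((16 * ee F (TY P) (TY P') -
          22 * ee F ((TY P).filter fun v => g (ρ v) ≠ 0)
            ((TY P').filter fun v => g (ρ v) ≠ 0) : ℕ) : ℝ)) (fun _ _ => Nat.cast_nonneg _) P P'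
          hP hP').trans hc3'
        have h2 : ((16 * ee F (TY P) (TY P') : ℕ) : ℝ) ≤
            ((22 * ee F ((TY P).filter fun v => g (ρ v) ≠ 0)
            ((TY P').filter fun v => g (ρ v) ≠ 0) + (16 * ee F (TY P) (TY P') -
          22 * ee F ((TY P).filter fun v => g (ρ v) ≠ 0)
            ((TY P').filter fun v => g (ρ v) ≠ 0)) : ℕ) : ℝ) := by
          rw [Nat.cast_le]
          omega
        rw [Nat.cast_add, Nat.cast_mul, Nat.cast_mul] at h2
        push_cast at h2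
        have h3 := h0.2
        rw [sp_ne cl g ρ hcl (pt nd P) (fun v => 2 ≤ qt v),
          sp_ne cl g ρ hcl (pt nd P') (fun v => 2 ≤ qt v)]
        have h4 : 0 ≤ f1 * n := by positivity
        simp only [TY] at h1 h2
        linarith

end Pool.Agent.H65.SP2
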